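import Mathlib

/-!
# The combinatorial core of the lower bound for linear widths
-/

open Finset

namespace Pool.Agent.Helper40.LinWidth

section Comb

variable {ι S Y : Type*} [Fintype ι] [DecidableEq ι] [Fintype S] [DecidableEq S] [Fintype Y]

/-- Second-moment count. -/
theorem sum_pairs_le (b : ι → ℝ) (hb : ∀ R, 0 ≤ b R)
    (σ : ι → S) (ρ : S → Y → ι) (hσ : ∀ s y, σ (ρ s y) = s)
    (P : ℝ) (u : S → S → ℝ) (hu0 : ∀ s s', 0 < u s s')
    (hcount2 : ∀ R1 R2, σ R1 ≠ σ R2 →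
      (((univ : Finset Y).filter fun y => ρ (σ R1) y = R1 ∧ ρ (σ R2) y = R2).card : ℝ)
        ≤ Fintype.card Y * u (σ R1) (σ R2) ^ 4 / P) (hP : 0 < P) :
    ∑ y, ∑ s, ∑ s', (if s ≠ s' then b (ρ s y) * b (ρ s' y) / u s s' ^ 4 else 0)
      ≤ Fintype.card Y / P * (∑ R, b R) ^ 2 := by
  have h1 : ∀ y : Y, ∀ s s' : S, (if s ≠ s' then b (ρ s y) * b (ρ s' y) / u s s' ^ 4 else 0)
      = ∑ R1, ∑ R2, (if ρ s y = R1 ∧ ρ s' y = R2 ∧ s ≠ s' then b R1 * b R2 / u s s' ^ 4 else 0) := by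
    intro y s s'
    rw [Finset.sum_eq_single (ρ s y), Finset.sum_eq_single (ρ s' y)]
    · by_cases h : s ≠ s' <;> simp [h]
    · intro R2 _ hR2
      rw [if_neg]
      rintro ⟨_, h, _⟩
      exact hR2 h.symm
    · intro h; exact absurd (mem_univ _) h
    · intro R1 _ hR1
      apply Finset.sum_eq_zero
      intro R2 _
      rw [if_neg]
      rintro ⟨h, _, _⟩
      exact hR1 h.symm
    · intro h; exact absurd (mem_univ _) h
  have h2 : ∑ y, ∑ s, ∑ s', (if s ≠ s' then b (ρ s y) * b (ρ s' y) / u s s' ^ 4 else 0)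
      = ∑ R1, ∑ R2, ∑ y, ∑ s, ∑ s',
        (if ρ s y = R1 ∧ ρ s' y = R2 ∧ s ≠ s' then b R1 * b R2 / u s s' ^ 4 else 0) := by
    calc ∑ y, ∑ s, ∑ s', (if s ≠ s' then b (ρ s y) * b (ρ s' y) / u s s' ^ 4 else 0)
        = ∑ y, ∑ s, ∑ s', ∑ R1, ∑ R2,
          (if ρ s y = R1 ∧ ρ s' y = R2 ∧ s ≠ s' then b R1 * b R2 / u s s' ^ 4 else 0) := by
          refine Finset.sum_congr rfl fun y _ => Finset.sum_congr rfl fun s _ =>
            Finset.sum_congr rfl fun s' _ => h1 y s s'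
      _ = ∑ y, ∑ s, ∑ R1, ∑ s', ∑ R2,
          (if ρ s y = R1 ∧ ρ s' y = R2 ∧ s ≠ s' then b R1 * b R2 / u s s' ^ 4 else 0) := by
          refine Finset.sum_congr rfl fun y _ => Finset.sum_congr rfl fun s _ => Finset.sum_comm
      _ = ∑ y, ∑ R1, ∑ s, ∑ s', ∑ R2,
          (if ρ s y = R1 ∧ ρ s' y = R2 ∧ s ≠ s' then b R1 * b R2 / u s s' ^ 4 else 0) := by
          refine Finset.sum_congr rfl fun y _ => Finset.sum_comm
      _ = ∑ R1, ∑ y, ∑ s, ∑ s', ∑ R2,
          (if ρ s y = R1 ∧ ρ s' y = R2 ∧ s ≠ s' then b R1 * b R2 / u s s' ^ 4 else 0) :=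
          Finset.sum_comm
      _ = ∑ R1, ∑ y, ∑ s, ∑ R2, ∑ s',
          (if ρ s y = R1 ∧ ρ s' y = R2 ∧ s ≠ s' then b R1 * b R2 / u s s' ^ 4 else 0) := by
          refine Finset.sum_congr rfl fun R1 _ => Finset.sum_congr rfl fun y _ =>
            Finset.sum_congr rfl fun s _ => Finset.sum_comm
      _ = ∑ R1, ∑ y, ∑ R2, ∑ s, ∑ s',
          (if ρ s y = R1 ∧ ρ s' y = R2 ∧ s ≠ s' then b R1 * b R2 / u s s' ^ 4 else 0) := by
          refine Finset.sum_congr rfl fun R1 _ => Finset.sum_congr rfl fun y _ => Finset.sum_comm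
      _ = ∑ R1, ∑ R2, ∑ y, ∑ s, ∑ s',
          (if ρ s y = R1 ∧ ρ s' y = R2 ∧ s ≠ s' then b R1 * b R2 / u s s' ^ 4 else 0) := by
          refine Finset.sum_congr rfl fun R1 _ => Finset.sum_comm
  rw [h2, sq, Finset.sum_mul_sum, Finset.mul_sum]
  refine Finset.sum_le_sum fun R1 _ => ?_
  rw [Finset.mul_sum]
  refine Finset.sum_le_sum fun R2 _ => ?_
  have h3 : ∀ y : Y, ∑ s, ∑ s',
      (if ρ s y = R1 ∧ ρ s' y = R2 ∧ s ≠ s' then b R1 * b R2 / u s s' ^ 4 else 0)
      = if ρ (σ R1) y = R1 ∧ ρ (σ R2) y = R2 ∧ σ R1 ≠ σ R2 then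
          b R1 * b R2 / u (σ R1) (σ R2) ^ 4 else 0 := by
    intro y
    rw [Finset.sum_eq_single (σ R1), Finset.sum_eq_single (σ R2)]
    · intro s' _ hs'
      rw [if_neg]
      rintro ⟨_, h, _⟩
      exact hs' (by rw [← h, hσ])
    · intro h; exact absurd (mem_univ _) h
    · intro s _ hs
      apply Finset.sum_eq_zero
      intro s' _
      rw [if_neg]
      rintro ⟨h, _, _⟩
      exact hs (by rw [← h, hσ])
    · intro h; exact absurd (mem_univ _) h
  simp_rw [h3]
  by_cases hne : σ R1 = σ R2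
  · have : ∀ y : Y, (if ρ (σ R1) y = R1 ∧ ρ (σ R2) y = R2 ∧ σ R1 ≠ σ R2 then
          b R1 * b R2 / u (σ R1) (σ R2) ^ 4 else 0) = 0 := by
      intro y
      rw [if_neg]
      rintro ⟨_, _, h⟩
      exact h hne
    simp_rw [this]
    rw [Finset.sum_const_zero]
    exact mul_nonneg (by positivity) (mul_nonneg (hb _) (hb _))
  · have h4 : ∑ y : Y, (if ρ (σ R1) y = R1 ∧ ρ (σ R2) y = R2 ∧ σ R1 ≠ σ R2 then
          b R1 * b R2 / u (σ R1) (σ R2) ^ 4 else 0)
        = (((univ : Finset Y).filter fun y => ρ (σ R1) y = R1 ∧ ρ (σ R2) y = R2).card : ℝ)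
          * (b R1 * b R2 / u (σ R1) (σ R2) ^ 4) := by
      rw [← nsmul_eq_mul, ← Finset.sum_const, Finset.sum_filter]
      refine Finset.sum_congr rfl fun y _ => ?_
      by_cases h : ρ (σ R1) y = R1 ∧ ρ (σ R2) y = R2
      · rw [if_pos ⟨h.1, h.2, hne⟩, if_pos h]
      · rw [if_neg h, if_neg]
        rintro ⟨h1, h2, _⟩
        exact h ⟨h1, h2⟩
    rw [h4]
    have hu := hu0 (σ R1) (σ R2)
    calc (((univ : Finset Y).filter fun y => ρ (σ R1) y = R1 ∧ ρ (σ R2) y = R2).card : ℝ)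
          * (b R1 * b R2 / u (σ R1) (σ R2) ^ 4)
        ≤ (Fintype.card Y * u (σ R1) (σ R2) ^ 4 / P) * (b R1 * b R2 / u (σ R1) (σ R2) ^ 4) :=
          mul_le_mul_of_nonneg_right (hcount2 R1 R2 hne)
            (div_nonneg (mul_nonneg (hb _) (hb _)) (by positivity))
      _ = Fintype.card Y / P * (b R1 * b R2) := by
          field_simp

/-- The combinatorial heart: a good point `y` and a large set `T` of shapes. -/
theorem exists_good (a : ι → ι → ℝ) (ha : ∀ R' R, 0 ≤ a R' R) (θ : ι → ℝ)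
    (hθ0 : ∀ R, 0 ≤ θ R) (hθ1 : ∀ R, θ R ≤ 1) (hrow : ∀ R', ∑ R, a R' R ^ 2 = θ R')
    (σ : ι → S) (ρ : S → Y → ι) (hσ : ∀ s y, σ (ρ s y) = s) (P : ℝ) (hP : 0 < P)
    (hcount1 : ∀ R, (((univ : Finset Y).filter fun y => ρ (σ R) y = R).card : ℝ)
      ≤ Fintype.card Y / P)
    (u : S → S → ℝ) (hu0 : ∀ s s', 0 < u s s') (Cu : ℝ) (hCu : ∀ s0, ∑ s, u s s0 ≤ Cu)
    (hcount2 : ∀ R1 R2, σ R1 ≠ σ R2 →
      (((univ : Finset Y).filter fun y => ρ (σ R1) y = R1 ∧ ρ (σ R2) y = R2).card : ℝ)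
        ≤ Fintype.card Y * u (σ R1) (σ R2) ^ 4 / P)
    (hι : (Fintype.card ι : ℝ) ≤ Fintype.card S * P)
    (g : S → Y → ℝ) (hg0 : ∀ s y, 0 ≤ g s y) (hg1 : ∀ s y, g s y ≤ 1) (κ : ℝ)
    (hg : κ * (Fintype.card S * Fintype.card Y) ≤ ∑ y, ∑ s, g s y)
    (τ : ℝ) (hτ : 0 < τ) (c : ℝ) (hc : 0 ≤ c)
    (hm : ∑ R, θ R ≤ c * (Fintype.card S * P)) [Nonempty Y] :
    ∃ (y : Y) (T : Finset S),
      (∀ R', ∑ s ∈ T, a R' (ρ s y) ≤ Real.sqrt (θ R') + Real.sqrt τ * Cu) ∧
      (κ - c / τ ^ 2 - Real.sqrt c - Real.sqrt τ * Cu) * Fintype.card S ≤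
        ∑ s ∈ T, g s y - ∑ s, (Real.sqrt (θ (ρ s y)) + Real.sqrt τ * Cu) := by
  classical
  -- the deleted shapes
  set Del : Y → Finset S := fun y => (univ : Finset S).filter fun s =>
    ∃ R' s', s ≠ s' ∧ τ * u s s' ^ 2 ≤ a R' (ρ s y) * a R' (ρ s' y) with hDel
  have hcardY : (0 : ℝ) < Fintype.card Y := by exact_mod_cast Fintype.card_pos
  -- bound for the total number of deletions
  have hDelcard : ∀ y, ((Del y).card : ℝ) ≤ ∑ R', ∑ s, ∑ s',
      (if s ≠ s' then a R' (ρ s y) ^ 2 * a R' (ρ s' y) ^ 2 / u s s' ^ 4 else 0) / τ ^ 2 := by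
    intro y
    have h0 : ((Del y).card : ℝ) = ∑ s, (if s ∈ Del y then (1 : ℝ) else 0) := by
      rw [Finset.sum_ite_mem, Finset.univ_inter]
      simp
    rw [h0, Finset.sum_comm]
    refine Finset.sum_le_sum fun s _ => ?_
    have hnn : ∀ R' s', 0 ≤ (if s ≠ s' then a R' (ρ s y) ^ 2 * a R' (ρ s' y) ^ 2 / u s s' ^ 4
        else 0) / τ ^ 2 := by
      intro R' s'
      have := hu0 s s'
      split_ifs <;> positivity
    split_ifs with hs
    · rw [hDel] at hs
      simp only [Finset.mem_filter, Finset.mem_univ, true_and] at hs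
      obtain ⟨R', s', hne, hle⟩ := hs
      calc (1 : ℝ) ≤ (if s ≠ s' then a R' (ρ s y) ^ 2 * a R' (ρ s' y) ^ 2 / u s s' ^ 4
              else 0) / τ ^ 2 := by
            rw [if_pos hne, div_div, le_div_iff₀ (by have := hu0 s s'; positivity), one_mul]
            have h1 : 0 ≤ τ * u s s' ^ 2 := by have := hu0 s s'; positivity
            nlinarith [mul_le_mul hle hle h1 (le_trans h1 hle)]
        _ ≤ ∑ s', (if s ≠ s' then a R' (ρ s y) ^ 2 * a R' (ρ s' y) ^ 2 / u s s' ^ 4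
              else 0) / τ ^ 2 :=
            Finset.single_le_sum (f := fun s' => (if s ≠ s' then
              a R' (ρ s y) ^ 2 * a R' (ρ s' y) ^ 2 / u s s' ^ 4 else 0) / τ ^ 2)
              (fun s' _ => hnn R' s') (mem_univ s')
        _ ≤ _ := Finset.single_le_sum (f := fun R' => ∑ s', (if s ≠ s' then
              a R' (ρ s y) ^ 2 * a R' (ρ s' y) ^ 2 / u s s' ^ 4 else 0) / τ ^ 2)
              (fun R' _ => Finset.sum_nonneg fun s' _ => hnn R' s') (mem_univ R')
    · exact Finset.sum_nonneg fun R' _ => Finset.sum_nonneg fun s' _ => hnn R' s'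
  have hDelsum : ∑ y, ((Del y).card : ℝ) ≤ (c / τ ^ 2 * Fintype.card S) * Fintype.card Y := by
    calc ∑ y, ((Del y).card : ℝ) ≤ ∑ y, ∑ R', ∑ s, ∑ s',
        (if s ≠ s' then a R' (ρ s y) ^ 2 * a R' (ρ s' y) ^ 2 / u s s' ^ 4 else 0) / τ ^ 2 :=
          Finset.sum_le_sum fun y _ => hDelcard y
      _ = ∑ R', (∑ y, ∑ s, ∑ s',
        (if s ≠ s' then a R' (ρ s y) ^ 2 * a R' (ρ s' y) ^ 2 / u s s' ^ 4 else 0)) / τ ^ 2 := by
          rw [Finset.sum_comm]
          simp_rw [Finset.sum_div]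
      _ ≤ ∑ R', (Fintype.card Y / P * θ R') / τ ^ 2 := by
          refine Finset.sum_le_sum fun R' _ => ?_
          gcongr
          refine (sum_pairs_le (fun R => a R' R ^ 2) (fun R => sq_nonneg _) σ ρ hσ P u hu0
            hcount2 hP).trans ?_
          rw [hrow]
          have := hθ0 R'
          have := hθ1 R'
          gcongr
          nlinarith
      _ = (Fintype.card Y / P / τ ^ 2) * ∑ R', θ R' := by
          rw [Finset.mul_sum]
          refine Finset.sum_congr rfl fun R' _ => ?_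
          ring
      _ ≤ (Fintype.card Y / P / τ ^ 2) * (c * (Fintype.card S * P)) := by
          gcongr
      _ = _ := by field_simp
  -- the good row bounds
  have hrowT : ∀ y R', ∑ s ∈ (Del y)ᶜ, a R' (ρ s y) ≤ Real.sqrt (θ R') + Real.sqrt τ * Cu := by
    intro y R'
    have hale : ∀ R, a R' R ≤ Real.sqrt (θ R') := by
      intro R
      apply Real.le_sqrt_of_sq_le
      rw [← hrow]
      exact Finset.single_le_sum (f := fun R => a R' R ^ 2) (fun R _ => sq_nonneg _) (mem_univ R)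
    have hCu0 : 0 ≤ Cu := by
      by_contra hneg
      push Not at hneg
      rcases isEmpty_or_nonempty S with hS | ⟨⟨s⟩⟩
      · have h0 : (Del y)ᶜ = ∅ := by
          ext s; exact (hS.false s).elim
        -- if there is no shape then `ι` is empty
        exact (hS.false (σ R')).elim
      · have := hCu s
        have h2 : 0 ≤ ∑ s', u s' s := Finset.sum_nonneg fun s' _ => (hu0 s' s).le
        linarith
    rcases ((Del y)ᶜ).eq_empty_or_nonempty with hE | hne
    · rw [hE, Finset.sum_empty]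
      positivity
    · obtain ⟨s0, hs0, hmax⟩ := Finset.exists_max_image _ (fun s => a R' (ρ s y)) hne
      have hbd : ∀ s ∈ ((Del y)ᶜ).erase s0, a R' (ρ s y) ≤ Real.sqrt τ * u s s0 := by
        intro s hs
        rw [Finset.mem_erase, Finset.mem_compl] at hs
        obtain ⟨hss0, hsD⟩ := hs
        rw [hDel] at hsD
        simp only [Finset.mem_filter, Finset.mem_univ, true_and, not_exists, not_and, not_le] at hsD
        have h1 := hsD R' s0 hss0
        have h2 := hmax s (by rw [Finset.mem_compl, hDel]; simp only [Finset.mem_filter,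
          Finset.mem_univ, true_and, not_exists, not_and, not_le]; exact hsD)
        have h3 : a R' (ρ s y) ^ 2 ≤ (Real.sqrt τ * u s s0) ^ 2 := by
          rw [mul_pow, Real.sq_sqrt hτ.le]
          have := ha R' (ρ s y)
          nlinarith
        exact (pow_le_pow_iff_left₀ (ha _ _) (by have := hu0 s s0; positivity) two_ne_zero).1 h3
      rw [← Finset.add_sum_erase _ _ hs0]
      refine add_le_add (hale _) ?_
      calc ∑ s ∈ ((Del y)ᶜ).erase s0, a R' (ρ s y)
          ≤ ∑ s ∈ ((Del y)ᶜ).erase s0, Real.sqrt τ * u s s0 := Finset.sum_le_sum hbd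
        _ ≤ ∑ s, Real.sqrt τ * u s s0 :=
            Finset.sum_le_sum_of_subset_of_nonneg (Finset.subset_univ _)
              (fun s _ _ => by have := hu0 s s0; positivity)
        _ = Real.sqrt τ * ∑ s, u s s0 := by rw [Finset.mul_sum]
        _ ≤ Real.sqrt τ * Cu := by gcongr; exact hCu s0
  -- averages
  have hsqrt : ∑ y, ∑ s, Real.sqrt (θ (ρ s y)) ≤
      (Real.sqrt c * Fintype.card S) * Fintype.card Y := by
    have h1 : ∑ y, ∑ s, Real.sqrt (θ (ρ s y)) =
        ∑ R, (((univ : Finset Y).filter fun y => ρ (σ R) y = R).card : ℝ) * Real.sqrt (θ R) := by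
      have h2 : ∀ y : Y, ∀ s : S, Real.sqrt (θ (ρ s y)) =
          ∑ R, (if ρ s y = R then Real.sqrt (θ R) else 0) := by
        intro y s; simp
      simp_rw [h2]
      have h3 : ∀ y : Y, ∑ s, ∑ R, (if ρ s y = R then Real.sqrt (θ R) else 0)
          = ∑ R, (if ρ (σ R) y = R then Real.sqrt (θ R) else 0) := by
        intro y
        rw [Finset.sum_comm]
        refine Finset.sum_congr rfl fun R _ => ?_
        rw [Finset.sum_eq_single (σ R)]
        · intro s _ hs
          rw [if_neg]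
          intro h
          exact hs (by rw [← h, hσ])
        · intro h; exact absurd (mem_univ _) h
      simp_rw [h3]
      rw [Finset.sum_comm]
      refine Finset.sum_congr rfl fun R _ => ?_
      rw [← Finset.sum_filter, Finset.sum_const, nsmul_eq_mul]
    rw [h1]
    calc ∑ R, (((univ : Finset Y).filter fun y => ρ (σ R) y = R).card : ℝ) * Real.sqrt (θ R)
        ≤ ∑ R, (Fintype.card Y / P) * Real.sqrt (θ R) :=
          Finset.sum_le_sum fun R _ => mul_le_mul_of_nonneg_right (hcount1 R) (Real.sqrt_nonneg _)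
      _ = (Fintype.card Y / P) * ∑ R, Real.sqrt (θ R) := by rw [Finset.mul_sum]
      _ ≤ (Fintype.card Y / P) * (Real.sqrt c * (Fintype.card S * P)) := by
          gcongr
          have hcs : (∑ R, Real.sqrt (θ R)) ^ 2 ≤ (Real.sqrt c * (Fintype.card S * P)) ^ 2 := by
            calc (∑ R, Real.sqrt (θ R)) ^ 2 ≤ (Fintype.card ι : ℝ) * ∑ R, Real.sqrt (θ R) ^ 2 := by
                  have := sq_sum_le_card_mul_sum_sq (s := (univ : Finset ι))
                    (f := fun R => Real.sqrt (θ R))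
                  simpa using this
              _ = (Fintype.card ι : ℝ) * ∑ R, θ R := by
                  congr 1
                  exact Finset.sum_congr rfl fun R _ => Real.sq_sqrt (hθ0 R)
              _ ≤ (Fintype.card S * P) * (c * (Fintype.card S * P)) := by
                  gcongr
                  exact Finset.sum_nonneg fun R _ => hθ0 R
              _ = (Real.sqrt c * (Fintype.card S * P)) ^ 2 := by
                  rw [mul_pow, Real.sq_sqrt hc]; ring
          exact (pow_le_pow_iff_left₀ (Finset.sum_nonneg fun R _ => Real.sqrt_nonneg _)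
            (by positivity) two_ne_zero).1 hcs
      _ = _ := by field_simp
  -- choose y
  by_contra hcon
  push Not at hcon
  have hlt : ∀ y, ∑ s ∈ (Del y)ᶜ, g s y - ∑ s, (Real.sqrt (θ (ρ s y)) + Real.sqrt τ * Cu) <
      (κ - c / τ ^ 2 - Real.sqrt c - Real.sqrt τ * Cu) * Fintype.card S :=
    fun y => hcon y _ (hrowT y)
  have hsum : ∑ y, (∑ s ∈ (Del y)ᶜ, g s y - ∑ s, (Real.sqrt (θ (ρ s y)) + Real.sqrt τ * Cu)) <
      ∑ _y : Y, (κ - c / τ ^ 2 - Real.sqrt c - Real.sqrt τ * Cu) * Fintype.card S :=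
    Finset.sum_lt_sum_of_nonempty Finset.univ_nonempty fun y _ => hlt y
  have hT : ∀ y, ∑ s, g s y - ((Del y).card : ℝ) ≤ ∑ s ∈ (Del y)ᶜ, g s y := by
    intro y
    have h1 : ∑ s ∈ Del y, g s y ≤ ((Del y).card : ℝ) := by
      calc ∑ s ∈ Del y, g s y ≤ ∑ s ∈ Del y, (1 : ℝ) := Finset.sum_le_sum fun s _ => hg1 s y
        _ = _ := by simp
    have h2 := Finset.sum_add_sum_compl (Del y) (fun s => g s y)
    linarith
  have hT2 : ∑ y, (∑ s, g s y - ((Del y).card : ℝ)) ≤ ∑ y, ∑ s ∈ (Del y)ᶜ, g s y :=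
    Finset.sum_le_sum fun y _ => hT y
  rw [Finset.sum_sub_distrib] at hT2
  rw [Finset.sum_sub_distrib] at hsum
  simp_rw [Finset.sum_add_distrib] at hsum
  simp only [Finset.sum_const, Finset.card_univ, nsmul_eq_mul] at hsum
  nlinarith [hsum, hT2, hsqrt, hDelsum, hg]

end Comb

end Pool.Agent.Helper40.LinWidth
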