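import Mathlib
import Pool.Agent.Helper40.LinWidth.Core

/-!
# From the combinatorial core to a bounded vector orthogonal to a subspace
-/

open Finset

namespace Pool.Agent.Helper40.LinWidth

section ProjFacts

variable {𝕜 : Type*} [RCLike 𝕜] {ι : Type*} [Fintype ι] [DecidableEq ι]

theorem proj_symm (L : Submodule 𝕜 (EuclideanSpace 𝕜 ι)) (R R' : ι) :
    ‖L.starProjection (EuclideanSpace.single R (1 : 𝕜)) R'‖ =
      ‖L.starProjection (EuclideanSpace.single R' (1 : 𝕜)) R‖ := by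
  have h1 : inner 𝕜 (EuclideanSpace.single R' (1 : 𝕜))
      (L.starProjection (EuclideanSpace.single R (1 : 𝕜))) =
      L.starProjection (EuclideanSpace.single R (1 : 𝕜)) R' := by
    rw [EuclideanSpace.inner_single_left]; simp
  have h2 : inner 𝕜 (L.starProjection (EuclideanSpace.single R' (1 : 𝕜)))
      (EuclideanSpace.single R (1 : 𝕜)) =
      (starRingEnd 𝕜) (L.starProjection (EuclideanSpace.single R' (1 : 𝕜)) R) := by
    rw [EuclideanSpace.inner_single_right]; simp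
  rw [← h1, ← Submodule.inner_starProjection_left_eq_right, h2, RCLike.norm_conj]

theorem proj_row (L : Submodule 𝕜 (EuclideanSpace 𝕜 ι)) (R' : ι) :
    ∑ R, ‖L.starProjection (EuclideanSpace.single R (1 : 𝕜)) R'‖ ^ 2 =
      ‖L.starProjection (EuclideanSpace.single R' (1 : 𝕜))‖ ^ 2 := by
  simp_rw [fun R => proj_symm L R R']
  rw [EuclideanSpace.norm_sq_eq]

theorem proj_trace (L : Submodule 𝕜 (EuclideanSpace 𝕜 ι)) :
    ∑ R, ‖L.starProjection (EuclideanSpace.single R (1 : 𝕜))‖ ^ 2 =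
      (Module.finrank 𝕜 L : ℝ) := by
  set v := stdOrthonormalBasis 𝕜 L with hv
  have h1 : ∀ x : EuclideanSpace 𝕜 ι, ‖L.starProjection x‖ ^ 2 =
      ∑ i, ‖inner 𝕜 ((v i : L) : EuclideanSpace 𝕜 ι) x‖ ^ 2 := by
    intro x
    have h2 : ‖L.starProjection x‖ = ‖L.orthogonalProjectionOnto x‖ := by
      rw [Submodule.starProjection_apply]
      rfl
    rw [h2, ← v.sum_sq_norm_inner_right (L.orthogonalProjectionOnto x)]
    refine Finset.sum_congr rfl fun i _ => ?_
    congr 2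
    rw [Submodule.coe_inner, ← Submodule.starProjection_apply,
      ← Submodule.inner_starProjection_left_eq_right,
      Submodule.starProjection_mem_subspace_eq_self]
  simp_rw [h1]
  rw [Finset.sum_comm]
  have h3 : ∀ i, ∑ R, ‖inner 𝕜 ((v i : L) : EuclideanSpace 𝕜 ι)
      (EuclideanSpace.single R (1 : 𝕜))‖ ^ 2 = 1 := by
    intro i
    have h4 : ‖((v i : L) : EuclideanSpace 𝕜 ι)‖ = 1 := v.orthonormal.1 i
    have h5 := EuclideanSpace.norm_sq_eq ((v i : L) : EuclideanSpace 𝕜 ι)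
    rw [h4, one_pow] at h5
    rw [h5]
    refine Finset.sum_congr rfl fun R _ => ?_
    rw [EuclideanSpace.inner_single_right]
    simp
  simp_rw [h3]
  simp

variable {S Y : Type*} [Fintype S] [DecidableEq S] [Fintype Y]

/-- A vector `b ⟂ L` with bounded coordinates which is large on the coordinates seen from a point
`y`. -/
theorem exists_vector (L : Submodule 𝕜 (EuclideanSpace 𝕜 ι))
    (σ : ι → S) (ρ : S → Y → ι) (hσ : ∀ s y, σ (ρ s y) = s) (P : ℝ) (hP : 0 < P)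
    (hcount1 : ∀ R, (((univ : Finset Y).filter fun y => ρ (σ R) y = R).card : ℝ)
      ≤ Fintype.card Y / P)
    (u : S → S → ℝ) (hu0 : ∀ s s', 0 < u s s') (Cu : ℝ) (hCu : ∀ s0, ∑ s, u s s0 ≤ Cu)
    (hcount2 : ∀ R1 R2, σ R1 ≠ σ R2 →
      (((univ : Finset Y).filter fun y => ρ (σ R1) y = R1 ∧ ρ (σ R2) y = R2).card : ℝ)
        ≤ Fintype.card Y * u (σ R1) (σ R2) ^ 4 / P)
    (hι : (Fintype.card ι : ℝ) ≤ Fintype.card S * P)
    (g : S → Y → ℝ) (hg0 : ∀ s y, 0 ≤ g s y) (hg1 : ∀ s y, g s y ≤ 1) (κ : ℝ)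
    (hg : κ * (Fintype.card S * Fintype.card Y) ≤ ∑ y, ∑ s, g s y)
    (τ : ℝ) (hτ : 0 < τ) (c : ℝ) (hc : 0 ≤ c)
    (hm : (Module.finrank 𝕜 L : ℝ) ≤ c * (Fintype.card S * P)) [Nonempty Y] :
    ∃ (y : Y), ∃ b ∈ Lᗮ, (∀ R, ‖b R‖ ≤ 2 + Real.sqrt τ * Cu) ∧
      (κ - c / τ ^ 2 - Real.sqrt c - Real.sqrt τ * Cu) * Fintype.card S ≤
        ‖∑ s, (g s y : 𝕜) * b (ρ s y)‖ := by
  classical
  set a : ι → ι → ℝ := fun R' R => ‖L.starProjection (EuclideanSpace.single R (1 : 𝕜)) R'‖ with ha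
  set θ : ι → ℝ := fun R => ‖L.starProjection (EuclideanSpace.single R (1 : 𝕜))‖ ^ 2 with hθ
  have hθ1 : ∀ R, θ R ≤ 1 := by
    intro R
    have h1 := L.norm_starProjection_apply_le (EuclideanSpace.single R (1 : 𝕜))
    have h2 : ‖(EuclideanSpace.single R (1 : 𝕜))‖ = 1 := by simp
    rw [h2] at h1
    exact pow_le_one₀ (norm_nonneg _) h1
  obtain ⟨y, T, hT1, hT2⟩ := exists_good a (fun _ _ => norm_nonneg _) θ (fun _ => sq_nonneg _)
    hθ1 (fun R' => proj_row L R') σ ρ hσ P hP hcount1 u hu0 Cu hCu hcount2 hι g hg0 hg1 κ hg τ hτ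
    c hc (by rw [proj_trace]; exact hm)
  set v : EuclideanSpace 𝕜 ι := ∑ s ∈ T, EuclideanSpace.single (ρ s y) (1 : 𝕜) with hv
  have hinj : ∀ s s', ρ s y = ρ s' y → s = s' := by
    intro s s' h
    rw [← hσ s y, h, hσ]
  have hPv : ∀ R', ‖L.starProjection v R'‖ ≤ Real.sqrt (θ R') + Real.sqrt τ * Cu := by
    intro R'
    rw [hv, map_sum]
    calc ‖(∑ s ∈ T, L.starProjection (EuclideanSpace.single (ρ s y) (1 : 𝕜))) R'‖
        = ‖∑ s ∈ T, L.starProjection (EuclideanSpace.single (ρ s y) (1 : 𝕜)) R'‖ := by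
          rw [WithLp.ofLp_sum, Finset.sum_apply]
      _ ≤ ∑ s ∈ T, a R' (ρ s y) := norm_sum_le _ _
      _ ≤ _ := hT1 R'
  have hvs : ∀ s, v (ρ s y) = if s ∈ T then 1 else 0 := by
    intro s
    rw [hv, WithLp.ofLp_sum, Finset.sum_apply]
    have : ∀ s' ∈ T, (EuclideanSpace.single (ρ s' y) (1 : 𝕜)) (ρ s y) =
        if s = s' then 1 else 0 := by
      intro s' _
      rw [PiLp.single_apply]
      by_cases h : s = s'
      · subst h; simp
      · rw [if_neg h, if_neg]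
        intro h2
        exact h (hinj _ _ h2)
    rw [Finset.sum_congr rfl this]
    simp
  have hv1 : ∀ R, ‖v R‖ ≤ 1 := by
    intro R
    by_cases h : ρ (σ R) y = R
    · rw [← h, hvs]
      split_ifs <;> simp
    · have : v R = 0 := by
        rw [hv, WithLp.ofLp_sum, Finset.sum_apply]
        apply Finset.sum_eq_zero
        intro s _
        rw [PiLp.single_apply, if_neg]
        intro h2
        apply h
        rw [h2, hσ]
      rw [this, norm_zero]
      exact zero_le_one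
  refine ⟨y, v - L.starProjection v, Submodule.sub_starProjection_mem_orthogonal v, ?_, ?_⟩
  · intro R
    rw [WithLp.ofLp_sub, Pi.sub_apply]
    have h1 := norm_sub_le (v R) (L.starProjection v R)
    have h2 := hPv R
    have h3 : Real.sqrt (θ R) ≤ 1 := by
      rw [show (1 : ℝ) = Real.sqrt 1 by simp]
      exact Real.sqrt_le_sqrt (hθ1 R)
    have h4 := hv1 R
    linarith
  · have h1 : ∑ s, (g s y : 𝕜) * (v - L.starProjection v) (ρ s y) =
        ((∑ s ∈ T, g s y : ℝ) : 𝕜) - ∑ s, (g s y : 𝕜) * L.starProjection v (ρ s y) := by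
      have h2 : ∀ s, (g s y : 𝕜) * (v - L.starProjection v) (ρ s y) =
          (g s y : 𝕜) * v (ρ s y) - (g s y : 𝕜) * L.starProjection v (ρ s y) := by
        intro s
        rw [WithLp.ofLp_sub, Pi.sub_apply, mul_sub]
      simp_rw [h2]
      rw [Finset.sum_sub_distrib]
      congr 1
      simp_rw [hvs]
      push_cast
      simp
    rw [h1]
    have h3 : ‖∑ s, (g s y : 𝕜) * L.starProjection v (ρ s y)‖ ≤
        ∑ s, (Real.sqrt (θ (ρ s y)) + Real.sqrt τ * Cu) := by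
      refine (norm_sum_le _ _).trans (Finset.sum_le_sum fun s _ => ?_)
      rw [norm_mul]
      have h4 : ‖(g s y : 𝕜)‖ ≤ 1 := by
        rw [RCLike.norm_ofReal, abs_of_nonneg (hg0 s y)]
        exact hg1 s y
      calc ‖(g s y : 𝕜)‖ * ‖L.starProjection v (ρ s y)‖ ≤ 1 * ‖L.starProjection v (ρ s y)‖ :=
            mul_le_mul_of_nonneg_right h4 (norm_nonneg _)
        _ ≤ _ := by rw [one_mul]; exact hPv _
    have h5 : ∑ s ∈ T, g s y ≤ ‖((∑ s ∈ T, g s y : ℝ) : 𝕜)‖ := by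
      rw [RCLike.norm_ofReal]
      exact le_abs_self _
    have h6 := norm_sub_norm_le ((∑ s ∈ T, g s y : ℝ) : 𝕜)
      (∑ s, (g s y : 𝕜) * L.starProjection v (ρ s y))
    linarith

end ProjFacts

end Pool.Agent.Helper40.LinWidth
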