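import Mathlib
import Pool.Agent.Helper40.LinWidth.Proj

/-!
# Dyadic rectangles of equal volume and points of a fine grid
-/

open Finset

namespace Pool.Agent.Helper40.LinWidth

/-- Shapes: exponents `s` with `∑ s_j = n`. -/
abbrev Shape (d n : ℕ) : Type := {s : Fin d → Fin (n + 1) // ∑ j, (s j : ℕ) = n}

/-- Indices of the dyadic rectangles of volume `2^(-n)`. -/
abbrev Idx (d n : ℕ) : Type := Σ s : Shape d n, (j : Fin d) → Fin (2 ^ (s.1 j : ℕ))

/-- The fine grid. -/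
abbrev Grid (d M : ℕ) : Type := Fin d → Fin (2 ^ M)

theorem shape_le {d n : ℕ} (s : Shape d n) (j : Fin d) : (s.1 j : ℕ) ≤ n :=
  Nat.lt_succ_iff.1 (s.1 j).2

theorem div_lt_aux {M p a : ℕ} (hp : p ≤ M) (ha : a < 2 ^ M) : a / 2 ^ (M - p) < 2 ^ p := by
  apply Nat.div_lt_of_lt_mul
  rw [← pow_add, Nat.sub_add_cancel hp]
  exact ha

/-- The rectangle of shape `s` which contains the grid point `y`. -/
def rect {d n M : ℕ} (hM : n ≤ M) (s : Shape d n) (y : Grid d M) : Idx d n :=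
  ⟨s, fun j => ⟨(y j : ℕ) / 2 ^ (M - (s.1 j : ℕ)),
    div_lt_aux ((shape_le s j).trans hM) (y j).2⟩⟩

theorem rect_fst {d n M : ℕ} (hM : n ≤ M) (s : Shape d n) (y : Grid d M) :
    (rect hM s y).1 = s := rfl

theorem rect_eq_imp {d n M : ℕ} (hM : n ≤ M) (R : Idx d n) (y : Grid d M)
    (h : rect hM R.1 y = R) (j : Fin d) :
    (y j : ℕ) / 2 ^ (M - (R.1.1 j : ℕ)) = (R.2 j : ℕ) := by
  obtain ⟨s, k⟩ := R
  simp only [rect, Sigma.mk.injEq, heq_eq_eq, true_and] at h
  have := congrFun h j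
  exact congrArg Fin.val this

theorem count_one (M p k : ℕ) :
    ((univ : Finset (Fin (2 ^ M))).filter fun a : Fin (2 ^ M) => (a : ℕ) / 2 ^ (M - p) = k).card
      ≤ 2 ^ (M - p) := by
  calc ((univ : Finset (Fin (2 ^ M))).filter fun a : Fin (2 ^ M) => (a : ℕ) / 2 ^ (M - p) = k).card
      ≤ (Finset.Ico (k * 2 ^ (M - p)) (k * 2 ^ (M - p) + 2 ^ (M - p))).card := by
        refine Finset.card_le_card_of_injOn (fun a => (a : ℕ)) ?_ ?_
        · intro a ha
          simp only [Finset.coe_filter, Finset.mem_univ, true_and, Set.mem_ofPred_eq] at ha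
          simp only [Finset.coe_Ico, Set.mem_Ico]
          have hpos : 0 < 2 ^ (M - p) := by positivity
          constructor
          · rw [← ha]; exact Nat.div_mul_le_self _ _
          · rw [← ha]; exact Nat.lt_div_mul_add hpos
        · intro a _ b _ h
          exact Fin.ext h
    _ = 2 ^ (M - p) := by
        rw [Nat.card_Ico]
        simp

theorem count_two (M p p' k k' : ℕ) :
    ((univ : Finset (Fin (2 ^ M))).filter fun a : Fin (2 ^ M) =>
      (a : ℕ) / 2 ^ (M - p) = k ∧ (a : ℕ) / 2 ^ (M - p') = k').card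
      ≤ 2 ^ (M - max p p') := by
  rcases le_total p p' with h | h
  · rw [max_eq_right h]
    refine le_trans (Finset.card_le_card ?_) (count_one M p' k')
    exact Finset.monotone_filter_right _ fun a _ ha => ha.2
  · rw [max_eq_left h]
    refine le_trans (Finset.card_le_card ?_) (count_one M p k)
    exact Finset.monotone_filter_right _ fun a _ ha => ha.1

theorem card_filter_pi_le {d M : ℕ} (Q : Fin d → ℕ → Prop) [∀ j, DecidablePred (Q j)]
    (N : Fin d → ℕ)
    (hN : ∀ j, ((univ : Finset (Fin (2 ^ M))).filter fun a : Fin (2 ^ M) => Q j (a : ℕ)).card ≤ N j)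
    (F : Finset (Grid d M)) (hF : ∀ y ∈ F, ∀ j, Q j (y j : ℕ)) :
    F.card ≤ ∏ j, N j := by
  calc F.card ≤ (Fintype.piFinset fun j => (univ : Finset (Fin (2 ^ M))).filter
        fun a : Fin (2 ^ M) => Q j (a : ℕ)).card := by
        apply Finset.card_le_card
        intro y hy
        rw [Fintype.mem_piFinset]
        intro j
        rw [Finset.mem_filter]
        exact ⟨Finset.mem_univ _, hF y hy j⟩
    _ = ∏ j, ((univ : Finset (Fin (2 ^ M))).filter fun a : Fin (2 ^ M) => Q j (a : ℕ)).card :=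
        Fintype.card_piFinset _
    _ ≤ _ := Finset.prod_le_prod' fun j _ => hN j

theorem card_grid (d M : ℕ) : (Fintype.card (Grid d M) : ℝ) = ((2 : ℝ) ^ M) ^ d := by
  simp

theorem hcount1 {d n M : ℕ} (hM : n ≤ M) (R : Idx d n) :
    (((univ : Finset (Grid d M)).filter fun y => rect hM R.1 y = R).card : ℝ)
      ≤ Fintype.card (Grid d M) / 2 ^ n := by
  have h1 := card_filter_pi_le (M := M) (fun j a => a / 2 ^ (M - (R.1.1 j : ℕ)) = (R.2 j : ℕ))
    (fun j => 2 ^ (M - (R.1.1 j : ℕ))) (fun j => count_one M _ _)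
    ((univ : Finset (Grid d M)).filter fun y => rect hM R.1 y = R)
    (fun y hy j => rect_eq_imp hM R y (Finset.mem_filter.1 hy).2 j)
  have h2 : ((∏ j : Fin d, 2 ^ (M - (R.1.1 j : ℕ)) : ℕ) : ℝ) = ((2 : ℝ) ^ M) ^ d / 2 ^ n := by
    push_cast
    have h3 : ∀ j : Fin d, (2 : ℝ) ^ (M - (R.1.1 j : ℕ)) = 2 ^ M / 2 ^ (R.1.1 j : ℕ) := by
      intro j
      rw [pow_sub₀ _ (by norm_num) ((shape_le R.1 j).trans hM)]
      rfl
    rw [Finset.prod_congr rfl fun j _ => h3 j, Finset.prod_div_distrib, Finset.prod_const,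
      Finset.prod_pow_eq_pow_sum, R.1.2]
    simp
  rw [card_grid, ← h2]
  exact_mod_cast h1

/-- `|p - q|` for natural numbers. -/
def ndist (p q : ℕ) : ℕ := (p - q) + (q - p)

/-- The weight. -/
noncomputable def wt {d n : ℕ} (s s' : Shape d n) : ℝ :=
  ∏ j, (19 / 20 : ℝ) ^ ndist (s.1 j) (s'.1 j)

theorem wt_pos {d n : ℕ} (s s' : Shape d n) : 0 < wt s s' :=
  Finset.prod_pos fun j _ => by positivity

theorem sum_max_eq {d n : ℕ} (s s' : Shape d n) :
    ∃ D : ℕ, ∑ j, max (s.1 j : ℕ) (s'.1 j : ℕ) = n + D ∧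
      ∑ j, ndist (s.1 j) (s'.1 j) = 2 * D := by
  refine ⟨∑ j, ((s'.1 j : ℕ) - (s.1 j : ℕ)), ?_, ?_⟩
  · have h : ∀ j, max (s.1 j : ℕ) (s'.1 j : ℕ) = (s.1 j : ℕ) + ((s'.1 j : ℕ) - (s.1 j : ℕ)) := by
      intro j; omega
    rw [Finset.sum_congr rfl fun j _ => h j, Finset.sum_add_distrib, s.2]
  · have h : ∀ j, ((s.1 j : ℕ) - (s'.1 j : ℕ)) + (s'.1 j : ℕ) =
        (s.1 j : ℕ) + ((s'.1 j : ℕ) - (s.1 j : ℕ)) := by
      intro j; omega
    have h2 := Finset.sum_congr (s₁ := (univ : Finset (Fin d))) rfl fun j _ => h j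
    rw [Finset.sum_add_distrib, Finset.sum_add_distrib, s.2, s'.2] at h2
    unfold ndist
    rw [Finset.sum_add_distrib]
    omega

theorem wt_pow {d n : ℕ} (s s' : Shape d n) (D : ℕ)
    (hD : ∑ j, ndist (s.1 j) (s'.1 j) = 2 * D) : (1 / 2 : ℝ) ^ D ≤ wt s s' ^ 4 := by
  unfold wt
  rw [Finset.prod_pow_eq_pow_sum, hD, ← pow_mul, show 2 * D * 4 = 8 * D by ring, pow_mul]
  exact pow_le_pow_left₀ (by norm_num) (by norm_num) D

theorem hcount2 {d n M : ℕ} (hM : n ≤ M) (R1 R2 : Idx d n) :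
    (((univ : Finset (Grid d M)).filter fun y => rect hM R1.1 y = R1 ∧ rect hM R2.1 y = R2).card
      : ℝ) ≤ Fintype.card (Grid d M) * wt R1.1 R2.1 ^ 4 / 2 ^ n := by
  have h1 := card_filter_pi_le (M := M)
    (fun j a => a / 2 ^ (M - (R1.1.1 j : ℕ)) = (R1.2 j : ℕ) ∧
      a / 2 ^ (M - (R2.1.1 j : ℕ)) = (R2.2 j : ℕ))
    (fun j => 2 ^ (M - max (R1.1.1 j : ℕ) (R2.1.1 j : ℕ))) (fun j => count_two M _ _ _ _)
    ((univ : Finset (Grid d M)).filter fun y => rect hM R1.1 y = R1 ∧ rect hM R2.1 y = R2)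
    (fun y hy j => ⟨rect_eq_imp hM R1 y (Finset.mem_filter.1 hy).2.1 j,
      rect_eq_imp hM R2 y (Finset.mem_filter.1 hy).2.2 j⟩)
  obtain ⟨D, hD1, hD2⟩ := sum_max_eq R1.1 R2.1
  have h2 : ((∏ j : Fin d, 2 ^ (M - max (R1.1.1 j : ℕ) (R2.1.1 j : ℕ)) : ℕ) : ℝ)
      = ((2 : ℝ) ^ M) ^ d / 2 ^ (n + D) := by
    push_cast
    have h3 : ∀ j : Fin d, (2 : ℝ) ^ (M - max (R1.1.1 j : ℕ) (R2.1.1 j : ℕ)) =
        2 ^ M / 2 ^ (max (R1.1.1 j : ℕ) (R2.1.1 j : ℕ)) := by
      intro j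
      rw [pow_sub₀ _ (by norm_num) ((max_le (shape_le R1.1 j) (shape_le R2.1 j)).trans hM)]
      rfl
    rw [Finset.prod_congr rfl fun j _ => h3 j, Finset.prod_div_distrib, Finset.prod_const,
      Finset.prod_pow_eq_pow_sum, hD1]
    simp
  have h4 : ((2 : ℝ) ^ M) ^ d / 2 ^ (n + D) ≤
      Fintype.card (Grid d M) * wt R1.1 R2.1 ^ 4 / 2 ^ n := by
    rw [card_grid]
    calc ((2 : ℝ) ^ M) ^ d / 2 ^ (n + D) = ((2 : ℝ) ^ M) ^ d * (1 / 2) ^ D / 2 ^ n := by
          rw [pow_add, one_div, inv_pow]; field_simp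
      _ ≤ _ := by
          gcongr
          exact wt_pow _ _ D hD2
  refine le_trans ?_ h4
  rw [← h2]
  exact_mod_cast h1

theorem sum_ndist_le (n q : ℕ) :
    ∑ p ∈ Finset.range (n + 1), (19 / 20 : ℝ) ^ ndist p q ≤ 40 := by
  have hgeom : ∀ N : ℕ, ∑ i ∈ Finset.range N, (19 / 20 : ℝ) ^ i ≤ 20 := by
    intro N
    have h := geom_sum_eq (show (19 / 20 : ℝ) ≠ 1 by norm_num) N
    rw [h]
    have : (0 : ℝ) ≤ (19 / 20) ^ N := by positivity
    rw [div_le_iff_of_neg (by norm_num)]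
    linarith
  have h1 : ∀ p, (19 / 20 : ℝ) ^ ndist p q ≤
      (if p ≤ q then (19 / 20 : ℝ) ^ (q - p) else 0) +
      (if q ≤ p then (19 / 20 : ℝ) ^ (p - q) else 0) := by
    intro p
    unfold ndist
    rcases le_total p q with h | h
    · rw [if_pos h, Nat.sub_eq_zero_of_le h, zero_add]
      exact le_add_of_nonneg_right (by split_ifs <;> positivity)
    · rw [if_pos h, Nat.sub_eq_zero_of_le h, add_zero]
      exact le_add_of_nonneg_left (by split_ifs <;> positivity)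
  refine (Finset.sum_le_sum fun p _ => h1 p).trans ?_
  rw [Finset.sum_add_distrib, ← Finset.sum_filter, ← Finset.sum_filter]
  have h2 : ∑ p ∈ (Finset.range (n + 1)).filter (fun p => p ≤ q), (19 / 20 : ℝ) ^ (q - p) ≤ 20 := by
    refine le_trans ?_ (hgeom (q + 1))
    calc ∑ p ∈ (Finset.range (n + 1)).filter (fun p => p ≤ q), (19 / 20 : ℝ) ^ (q - p)
        ≤ ∑ p ∈ Finset.range (q + 1), (19 / 20 : ℝ) ^ (q - p) := by
          apply Finset.sum_le_sum_of_subset_of_nonneg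
          · intro p hp
            rw [Finset.mem_filter] at hp
            rw [Finset.mem_range]; omega
          · intro i _ _; positivity
      _ = ∑ i ∈ Finset.range (q + 1), (19 / 20 : ℝ) ^ i := by
          rw [← Finset.sum_range_reflect]
          refine Finset.sum_congr rfl fun i hi => ?_
          rw [Finset.mem_range] at hi
          congr 1
          omega
  have h3 : ∑ p ∈ (Finset.range (n + 1)).filter (fun p => q ≤ p), (19 / 20 : ℝ) ^ (p - q) ≤ 20 := by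
    refine le_trans ?_ (hgeom (n + 1))
    have hinj : Set.InjOn (fun p => p - q)
        (((Finset.range (n + 1)).filter (fun p => q ≤ p) : Finset ℕ) : Set ℕ) := by
      intro a ha b hb hab
      simp only [Finset.coe_filter, Set.mem_ofPred_eq] at ha hb
      simp only at hab
      omega
    rw [← Finset.sum_image (f := fun i => (19 / 20 : ℝ) ^ i) hinj]
    apply Finset.sum_le_sum_of_subset_of_nonneg
    · intro i hi
      rw [Finset.mem_image] at hi
      obtain ⟨p, hp, rfl⟩ := hi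
      rw [Finset.mem_filter, Finset.mem_range] at hp
      rw [Finset.mem_range]; omega
    · intro i _ _; positivity
  linarith

theorem sum_wt_le {d n : ℕ} (s0 : Shape d n) : ∑ s, wt s s0 ≤ (40 : ℝ) ^ d := by
  calc ∑ s : Shape d n, wt s s0
      = ∑ s : Shape d n, (fun t : Fin d → Fin (n + 1) =>
          ∏ j, (19 / 20 : ℝ) ^ ndist (t j) (s0.1 j)) s.1 := rfl
    _ = ∑ t ∈ (univ : Finset (Shape d n)).image Subtype.val,
          ∏ j, (19 / 20 : ℝ) ^ ndist (t j) (s0.1 j) := by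
        rw [Finset.sum_image fun a _ b _ h => Subtype.ext h]
    _ ≤ ∑ t : Fin d → Fin (n + 1), ∏ j, (19 / 20 : ℝ) ^ ndist (t j) (s0.1 j) :=
        Finset.sum_le_sum_of_subset_of_nonneg (Finset.subset_univ _)
          fun t _ _ => Finset.prod_nonneg fun j _ => by positivity
    _ = ∏ j : Fin d, ∑ p : Fin (n + 1), (19 / 20 : ℝ) ^ ndist p (s0.1 j) := by
        rw [Finset.prod_univ_sum]
        simp
    _ ≤ ∏ _j : Fin d, (40 : ℝ) := by
        refine Finset.prod_le_prod (fun j _ => Finset.sum_nonneg fun p _ => by positivity)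
          fun j _ => ?_
        rw [Fin.sum_univ_eq_sum_range (fun p => (19 / 20 : ℝ) ^ ndist p (s0.1 j))]
        exact sum_ndist_le n _
    _ = (40 : ℝ) ^ d := by simp

theorem card_idx (d n : ℕ) : (Fintype.card (Idx d n) : ℝ) = Fintype.card (Shape d n) * 2 ^ n := by
  rw [Fintype.card_sigma]
  have h : ∀ s : Shape d n, Fintype.card ((j : Fin d) → Fin (2 ^ (s.1 j : ℕ))) = 2 ^ n := by
    intro s
    rw [Fintype.card_pi]
    simp only [Fintype.card_fin]
    rw [Finset.prod_pow_eq_pow_sum, s.2]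
  simp_rw [h]
  simp

theorem mul_add_mod_aux {k q i : ℕ} (h : i < q) : (k * q + i) % q = i := by
  rw [Nat.add_comm, Nat.add_mul_mod_self_right, Nat.mod_eq_of_lt h]

/-- The value at a grid point of the product bump attached to a shape. -/
noncomputable def bumpVal {d n M : ℕ} (φ : ℝ → ℝ) (s : Shape d n) (y : Grid d M) : ℝ :=
  ∏ j, φ (Int.fract (((y j : ℕ) : ℝ) / 2 ^ (M - (s.1 j : ℕ))))

theorem sum_bump_one (φ : ℝ → ℝ) (hφ0 : ∀ x, 0 ≤ φ x)
    (hφmid : ∀ x, 3 / 8 ≤ x → x ≤ 5 / 8 → φ x = 1) {n M p : ℕ} (hp : p ≤ n) (hM : n + 3 ≤ M) :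
    (2 : ℝ) ^ M / 4 ≤ ∑ a : Fin (2 ^ M), φ (Int.fract (((a : ℕ) : ℝ) / 2 ^ (M - p))) := by
  rw [Fin.sum_univ_eq_sum_range (fun a => φ (Int.fract ((a : ℝ) / 2 ^ (M - p))))]
  obtain ⟨w, hw⟩ : ∃ w, M - p = w + 3 := ⟨M - p - 3, by omega⟩
  have hMw : M = p + (w + 3) := by omega
  rw [hw]
  set B : Finset ℕ := (Finset.range (2 ^ M)).filter
    (fun a => 3 * 2 ^ w ≤ a % 2 ^ (w + 3) ∧ a % 2 ^ (w + 3) ≤ 5 * 2 ^ w) with hB
  have hcard : 2 ^ p * (2 * 2 ^ w) ≤ B.card := by
    calc 2 ^ p * (2 * 2 ^ w)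
        = ((Finset.range (2 ^ p)) ×ˢ (Finset.range (2 * 2 ^ w))).card := by
          rw [Finset.card_product, Finset.card_range, Finset.card_range]
      _ ≤ B.card := by
          refine Finset.card_le_card_of_injOn
            (fun x : ℕ × ℕ => x.1 * 2 ^ (w + 3) + (3 * 2 ^ w + x.2)) ?_ ?_
          · rintro ⟨k, i⟩ hx
            rw [Finset.coe_product, Set.mem_prod, Finset.mem_coe, Finset.mem_coe,
              Finset.mem_range, Finset.mem_range] at hx
            obtain ⟨hk, hi⟩ := hx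
            simp only at hk hi
            rw [Finset.mem_coe, hB, Finset.mem_filter, Finset.mem_range]
            have h8 : 2 ^ (w + 3) = 8 * 2 ^ w := by rw [pow_add]; ring
            have hlt : 3 * 2 ^ w + i < 2 ^ (w + 3) := by rw [h8]; omega
            have hmod : (k * 2 ^ (w + 3) + (3 * 2 ^ w + i)) % 2 ^ (w + 3) = 3 * 2 ^ w + i := by
              rw [mul_add_mod_aux hlt]
            simp only [hmod]
            refine ⟨?_, by omega, by omega⟩
            calc k * 2 ^ (w + 3) + (3 * 2 ^ w + i) < k * 2 ^ (w + 3) + 2 ^ (w + 3) := by omega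
              _ = (k + 1) * 2 ^ (w + 3) := by ring
              _ ≤ 2 ^ p * 2 ^ (w + 3) := Nat.mul_le_mul_right _ hk
              _ = 2 ^ M := by rw [← pow_add, hMw]
          · rintro ⟨k, i⟩ hx ⟨k', i'⟩ hx' h
            rw [Finset.coe_product, Set.mem_prod, Finset.mem_coe, Finset.mem_coe,
              Finset.mem_range, Finset.mem_range] at hx hx'
            simp only at hx hx' h
            have h8 : 2 ^ (w + 3) = 8 * 2 ^ w := by rw [pow_add]; ring
            have hlt : 3 * 2 ^ w + i < 2 ^ (w + 3) := by rw [h8]; omega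
            have hlt' : 3 * 2 ^ w + i' < 2 ^ (w + 3) := by rw [h8]; omega
            have h1 := congrArg (fun z => z % 2 ^ (w + 3)) h
            simp only [mul_add_mod_aux hlt, mul_add_mod_aux hlt'] at h1
            have h2 : i = i' := by omega
            subst h2
            have h3 : k * 2 ^ (w + 3) = k' * 2 ^ (w + 3) := by omega
            have h4 : k = k' := Nat.eq_of_mul_eq_mul_right (by positivity) h3
            rw [h4]
  calc (2 : ℝ) ^ M / 4 = ((2 ^ p * (2 * 2 ^ w) : ℕ) : ℝ) := by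
        rw [hMw]; push_cast; rw [pow_add, pow_add]; ring
    _ ≤ (B.card : ℝ) := by exact_mod_cast hcard
    _ = ∑ a ∈ B, (1 : ℝ) := by simp
    _ = ∑ a ∈ B, φ (Int.fract ((a : ℝ) / 2 ^ (w + 3))) := by
        refine Finset.sum_congr rfl fun a ha => ?_
        rw [hB, Finset.mem_filter] at ha
        obtain ⟨_, ha1, ha2⟩ := ha
        have h1 : Int.fract ((a : ℝ) / 2 ^ (w + 3)) = ((a % 2 ^ (w + 3) : ℕ) : ℝ) / 2 ^ (w + 3) := by
          have := @Int.fract_div_natCast_eq_div_natCast_mod ℝ _ _ _ _ a (2 ^ (w + 3))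
          push_cast at this
          rw [this]
        have h8 : (2 : ℝ) ^ (w + 3) = 8 * 2 ^ w := by rw [pow_add]; ring
        have hw0 : (0 : ℝ) < 2 ^ w := by positivity
        have ha1' : (3 : ℝ) * 2 ^ w ≤ ((a % 2 ^ (w + 3) : ℕ) : ℝ) := by exact_mod_cast ha1
        have ha2' : ((a % 2 ^ (w + 3) : ℕ) : ℝ) ≤ (5 : ℝ) * 2 ^ w := by exact_mod_cast ha2
        rw [h1, hφmid]
        · rw [h8, le_div_iff₀ (by positivity)]; linarith
        · rw [h8, div_le_iff₀ (by positivity)]; linarith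
    _ ≤ ∑ a ∈ Finset.range (2 ^ M), φ (Int.fract ((a : ℝ) / 2 ^ (w + 3))) :=
        Finset.sum_le_sum_of_subset_of_nonneg (Finset.filter_subset _ _) fun a _ _ => hφ0 _

theorem sum_bumpVal {d n M : ℕ} (φ : ℝ → ℝ) (hφ0 : ∀ x, 0 ≤ φ x)
    (hφmid : ∀ x, 3 / 8 ≤ x → x ≤ 5 / 8 → φ x = 1) (hM : n + 3 ≤ M) :
    (1 / 4 : ℝ) ^ d * (Fintype.card (Shape d n) * Fintype.card (Grid d M)) ≤
      ∑ y : Grid d M, ∑ s : Shape d n, bumpVal φ s y := by
  rw [Finset.sum_comm]
  have h1 : ∀ s : Shape d n, (1 / 4 : ℝ) ^ d * Fintype.card (Grid d M) ≤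
      ∑ y : Grid d M, bumpVal φ s y := by
    intro s
    have h2 : ∑ y : Grid d M, bumpVal φ s y =
        ∏ j : Fin d, ∑ a : Fin (2 ^ M), φ (Int.fract (((a : ℕ) : ℝ) / 2 ^ (M - (s.1 j : ℕ)))) := by
      rw [Finset.prod_univ_sum]
      simp [bumpVal]
    rw [h2, card_grid]
    calc (1 / 4 : ℝ) ^ d * ((2 : ℝ) ^ M) ^ d = ∏ _j : Fin d, ((2 : ℝ) ^ M / 4) := by
          rw [Finset.prod_const, ← mul_pow]
          simp only [Finset.card_univ, Fintype.card_fin]
          congr 1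
          ring
      _ ≤ _ := by
          refine Finset.prod_le_prod (fun j _ => by positivity) fun j _ => ?_
          exact sum_bump_one φ hφ0 hφmid (shape_le s j) hM
  calc (1 / 4 : ℝ) ^ d * (Fintype.card (Shape d n) * Fintype.card (Grid d M))
      = ∑ _s : Shape d n, (1 / 4 : ℝ) ^ d * Fintype.card (Grid d M) := by
        rw [Finset.sum_const, nsmul_eq_mul]
        simp only [Finset.card_univ]
        ring
    _ ≤ _ := Finset.sum_le_sum fun s _ => h1 s

/-- The geometric core: there is a constant `c > 0` depending on `d` only such that for every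
subspace `L` of dimension at most `c` times the number of rectangles, some `b ⟂ L` has coordinates
bounded by `3` and is large when summed over the rectangles seen from a suitable grid point. -/
theorem geom_core (𝕜 : Type*) [RCLike 𝕜] (d : ℕ) :
    ∃ c : ℝ, 0 < c ∧ ∀ (n M : ℕ) (hM : n ≤ M), n + 3 ≤ M → ∀ (φ : ℝ → ℝ), (∀ x, 0 ≤ φ x) →
      (∀ x, φ x ≤ 1) → (∀ x, 3 / 8 ≤ x → x ≤ 5 / 8 → φ x = 1) →
      ∀ L : Submodule 𝕜 (EuclideanSpace 𝕜 (Idx d n)),
        (Module.finrank 𝕜 L : ℝ) ≤ c * (Fintype.card (Shape d n) * 2 ^ n) →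
        ∃ y : Grid d M, ∃ b ∈ Lᗮ, (∀ R, ‖b R‖ ≤ 3) ∧
          (1 / 4 : ℝ) ^ d / 2 * Fintype.card (Shape d n) ≤
            ‖∑ s : Shape d n, (bumpVal φ s y : 𝕜) * b (rect hM s y)‖ := by
  set κ : ℝ := (1 / 4 : ℝ) ^ d with hκ
  have hκ0 : 0 < κ := by positivity
  have hκ1 : κ ≤ 1 := pow_le_one₀ (by norm_num) (by norm_num)
  set t : ℝ := κ / (4 * 40 ^ d) with ht
  have ht0 : 0 < t := by positivity
  set τ : ℝ := t ^ 2 with hτ
  have hτ0 : 0 < τ := by positivity
  have hsq : Real.sqrt τ = t := Real.sqrt_sq ht0.le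
  have hsqCu : Real.sqrt τ * (40 : ℝ) ^ d = κ / 4 := by
    rw [hsq, ht]; field_simp
  refine ⟨min (κ * τ ^ 2 / 8) ((κ / 8) ^ 2), lt_min (by positivity) (by positivity), ?_⟩
  set c : ℝ := min (κ * τ ^ 2 / 8) ((κ / 8) ^ 2) with hc
  have hc0 : 0 ≤ c := le_min (by positivity) (by positivity)
  have hc1 : c / τ ^ 2 ≤ κ / 8 := by
    rw [div_le_iff₀ (by positivity)]
    calc c ≤ κ * τ ^ 2 / 8 := min_le_left _ _
      _ = _ := by ring
  have hc2 : Real.sqrt c ≤ κ / 8 := by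
    rw [← Real.sqrt_sq (show 0 ≤ κ / 8 by positivity)]
    exact Real.sqrt_le_sqrt (min_le_right _ _)
  intro n M hM hM3 φ hφ0 hφ1 hφmid L hL
  obtain ⟨y, b, hb, hb3, hbig⟩ := exists_vector L (fun R => R.1) (fun s y => rect hM s y)
    (fun s y => rect_fst hM s y) ((2 : ℝ) ^ n) (by positivity) (hcount1 hM) wt wt_pos
    ((40 : ℝ) ^ d) sum_wt_le (fun R1 R2 _ => hcount2 hM R1 R2) (card_idx d n).le
    (fun s y => bumpVal φ s y) (fun s y => Finset.prod_nonneg fun j _ => hφ0 _)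
    (fun s y => Finset.prod_le_one (fun j _ => hφ0 _) fun j _ => hφ1 _) κ
    (sum_bumpVal φ hφ0 hφmid hM3) τ hτ0 c hc0 hL
  refine ⟨y, b, hb, fun R => (hb3 R).trans ?_, le_trans ?_ hbig⟩
  · rw [hsqCu]; linarith
  · apply mul_le_mul_of_nonneg_right _ (by positivity)
    rw [hsqCu]; linarith

end Pool.Agent.Helper40.LinWidth
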