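import Mathlib
import Pool.Agent.Helper40.LinWidth.Geom

/-!
# Sums over shapes
-/

open Finset

namespace Pool.Agent.Helper40.LinWidth

theorem min_le_telescope {ζ Z : ℝ} (hζ : 1 < ζ) (hZ : 0 < Z) :
    min Z (1 / Z) ≤ 4 * ζ / (ζ - 1) * (1 / (1 + Z) - 1 / (1 + ζ * Z)) := by
  have hζ0 : 0 < ζ := by linarith
  have h1 : min Z (1 / Z) ≤ 4 * Z / (1 + Z) ^ 2 := by
    rw [le_div_iff₀ (by positivity)]
    rcases le_total Z 1 with h | h
    · calc min Z (1 / Z) * (1 + Z) ^ 2 ≤ Z * (1 + Z) ^ 2 := by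
            gcongr; exact min_le_left _ _
        _ ≤ Z * 4 := by
            apply mul_le_mul_of_nonneg_left _ hZ.le
            nlinarith
        _ = 4 * Z := mul_comm _ _
    · calc min Z (1 / Z) * (1 + Z) ^ 2 ≤ (1 / Z) * (1 + Z) ^ 2 := by
            gcongr; exact min_le_right _ _
        _ ≤ (1 / Z) * (4 * Z ^ 2) := by
            gcongr; nlinarith
        _ = 4 * Z := by field_simp
  refine h1.trans ?_
  have h2 : 4 * ζ / (ζ - 1) * (1 / (1 + Z) - 1 / (1 + ζ * Z)) =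
      4 * ζ * Z / ((1 + Z) * (1 + ζ * Z)) := by
    have : ζ - 1 ≠ 0 := by linarith
    field_simp
    ring
  rw [h2, div_le_div_iff₀ (by positivity) (by positivity)]
  have h3 : 1 + ζ * Z ≤ ζ * (1 + Z) := by nlinarith
  have h4 : 0 ≤ 4 * Z * (1 + Z) := by positivity
  nlinarith [mul_le_mul_of_nonneg_left h3 h4]

theorem sum_min_le {ζ β : ℝ} (hζ : 1 < ζ) (hβ : 0 < β) (N : ℕ) :
    ∑ p ∈ Finset.range N, min (ζ ^ p * β) (1 / (ζ ^ p * β)) ≤ 4 * ζ / (ζ - 1) := by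
  have hζ0 : 0 < ζ := by linarith
  have h1 : ∀ N : ℕ, ∑ p ∈ Finset.range N, min (ζ ^ p * β) (1 / (ζ ^ p * β)) ≤
      4 * ζ / (ζ - 1) * (1 / (1 + β) - 1 / (1 + ζ ^ N * β)) := by
    intro N
    induction N with
    | zero => simp
    | succ N ih =>
      rw [Finset.sum_range_succ]
      have h2 := min_le_telescope hζ (show 0 < ζ ^ N * β by positivity)
      have h3 : ζ * (ζ ^ N * β) = ζ ^ (N + 1) * β := by rw [pow_succ]; ring
      rw [h3] at h2
      calc _ ≤ 4 * ζ / (ζ - 1) * (1 / (1 + β) - 1 / (1 + ζ ^ N * β)) +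
            4 * ζ / (ζ - 1) * (1 / (1 + ζ ^ N * β) - 1 / (1 + ζ ^ (N + 1) * β)) :=
            add_le_add ih h2
        _ = _ := by ring
  refine (h1 N).trans ?_
  have h4 : 0 ≤ 4 * ζ / (ζ - 1) := div_nonneg (by positivity) (by linarith)
  have h5 : 1 / (1 + β) - 1 / (1 + ζ ^ N * β) ≤ 1 := by
    have h6 : 1 / (1 + β) ≤ 1 := by
      rw [div_le_one (by positivity)]; linarith
    have h7 : 0 ≤ 1 / (1 + ζ ^ N * β) := by positivity
    linarith
  calc _ ≤ 4 * ζ / (ζ - 1) * 1 := mul_le_mul_of_nonneg_left h5 h4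
    _ = _ := mul_one _

/-- `∑_p 2^(-rp) min(1, (2^p a)^l) ≤ C a^r` for `0 < r < l`. -/
theorem sum_scale_le {r : ℝ} (hr : 0 < r) {l : ℕ} (hl : r < l) :
    ∃ C : ℝ, 0 ≤ C ∧ ∀ (a : ℝ), 0 ≤ a → ∀ N : ℕ,
      ∑ p ∈ Finset.range N, (2 : ℝ) ^ (-r * p) * min 1 ((2 ^ p * a) ^ l) ≤ C * a ^ r := by
  set δ : ℝ := min r (l - r) with hδ
  have hδ0 : 0 < δ := lt_min hr (by linarith)
  set ζ : ℝ := (2 : ℝ) ^ δ with hζ
  have hζ1 : 1 < ζ := Real.one_lt_rpow (by norm_num) hδ0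
  refine ⟨4 * ζ / (ζ - 1), div_nonneg (by positivity) (by linarith), fun a ha N => ?_⟩
  rcases ha.eq_or_lt with h0 | hpos
  · subst h0
    have hl0 : l ≠ 0 := by
      rintro rfl
      simp at hl
      linarith
    simp [hl0, Real.zero_rpow hr.ne']
  · have hterm : ∀ p : ℕ, (2 : ℝ) ^ (-r * p) * min 1 ((2 ^ p * a) ^ l) ≤
        a ^ r * min (ζ ^ p * a ^ δ) (1 / (ζ ^ p * a ^ δ)) := by
      intro p
      set z : ℝ := 2 ^ p * a with hz
      have hz0 : 0 < z := by positivity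
      have h1 : (2 : ℝ) ^ (-r * p) = a ^ r * z ^ (-r) := by
        rw [hz, Real.mul_rpow (by positivity) hpos.le, ← Real.rpow_natCast 2 p,
          ← Real.rpow_mul (by norm_num), Real.rpow_neg hpos.le]
        have : a ^ r ≠ 0 := (Real.rpow_pos_of_pos hpos r).ne'
        field_simp
      have h2 : ζ ^ p * a ^ δ = z ^ δ := by
        rw [hz, Real.mul_rpow (by positivity) hpos.le, hζ, ← Real.rpow_natCast (2 ^ δ) p,
          ← Real.rpow_mul (by norm_num), ← Real.rpow_natCast 2 p, ← Real.rpow_mul (by norm_num)]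
        congr 2
        ring
      rw [h1, h2, mul_assoc]
      apply mul_le_mul_of_nonneg_left _ (Real.rpow_nonneg hpos.le r)
      have h3 : 1 / z ^ δ = z ^ (-δ) := by rw [Real.rpow_neg hz0.le, one_div]
      rw [h3]
      rcases le_total z 1 with hz1 | hz1
      · have h4 : z ^ (-r) * min 1 (z ^ l) ≤ z ^ δ := by
          calc z ^ (-r) * min 1 (z ^ l) ≤ z ^ (-r) * z ^ l := by
                gcongr; exact min_le_right _ _
            _ = z ^ ((l : ℝ) - r) := by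
                rw [← Real.rpow_natCast z l, ← Real.rpow_add hz0]
                congr 1; ring
            _ ≤ z ^ δ := Real.rpow_le_rpow_of_exponent_ge hz0 hz1 (min_le_right _ _)
        refine le_min h4 (h4.trans ?_)
        exact Real.rpow_le_rpow_of_exponent_ge hz0 hz1 (by linarith)
      · have h4 : z ^ (-r) * min 1 (z ^ l) ≤ z ^ (-δ) := by
          calc z ^ (-r) * min 1 (z ^ l) ≤ z ^ (-r) * 1 := by
                gcongr; exact min_le_left _ _
            _ = z ^ (-r) := mul_one _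
            _ ≤ z ^ (-δ) := Real.rpow_le_rpow_of_exponent_le hz1 (by
                have : δ ≤ r := min_le_left _ _
                linarith)
        refine le_min (h4.trans ?_) h4
        exact Real.rpow_le_rpow_of_exponent_le hz1 (by linarith)
    calc ∑ p ∈ Finset.range N, (2 : ℝ) ^ (-r * p) * min 1 ((2 ^ p * a) ^ l)
        ≤ ∑ p ∈ Finset.range N, a ^ r * min (ζ ^ p * a ^ δ) (1 / (ζ ^ p * a ^ δ)) :=
          Finset.sum_le_sum fun p _ => hterm p
      _ = a ^ r * ∑ p ∈ Finset.range N, min (ζ ^ p * a ^ δ) (1 / (ζ ^ p * a ^ δ)) := by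
          rw [Finset.mul_sum]
      _ ≤ a ^ r * (4 * ζ / (ζ - 1)) :=
          mul_le_mul_of_nonneg_left (sum_min_le hζ1 (Real.rpow_pos_of_pos hpos δ) N)
            (Real.rpow_nonneg hpos.le r)
      _ = _ := mul_comm _ _

/-- `∑_p 2^(-rp)` is bounded. -/
theorem sum_geom_le {r : ℝ} (hr : 0 < r) :
    ∃ C : ℝ, 0 ≤ C ∧ ∀ N : ℕ, ∑ p ∈ Finset.range N, (2 : ℝ) ^ (-r * p) ≤ C := by
  set q : ℝ := (2 : ℝ) ^ (-r) with hq
  have hq0 : 0 < q := by positivity
  have hq1 : q < 1 := Real.rpow_lt_one_of_one_lt_of_neg (by norm_num) (by linarith)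
  refine ⟨1 / (1 - q), div_nonneg zero_le_one (by linarith), fun N => ?_⟩
  have h1 : ∀ p : ℕ, (2 : ℝ) ^ (-r * p) = q ^ p := by
    intro p
    rw [hq, ← Real.rpow_natCast, ← Real.rpow_mul (by norm_num)]
  simp_rw [h1]
  rw [geom_sum_eq hq1.ne]
  rw [← neg_div_neg_eq, neg_sub, neg_sub]
  apply div_le_div_of_nonneg_right _ (by linarith)
  have : 0 < q ^ N := by positivity
  linarith

/-- Summing over the rectangles of all shapes. -/
theorem sum_idx_le {d n : ℕ} (A : Fin d → ℕ → ℕ → ℝ) (hA0 : ∀ j p k, 0 ≤ A j p k)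
    (B : Fin d → ℕ → ℝ) (hAB : ∀ j p, ∑ k ∈ Finset.range (2 ^ p), A j p k ≤ B j p) :
    ∑ R : Idx d n, ∏ j, A j (R.1.1 j) (R.2 j) ≤ ∑ s : Shape d n, ∏ j, B j (s.1 j) := by
  rw [Fintype.sum_sigma]
  refine Finset.sum_le_sum fun s _ => ?_
  have h1 : ∑ k : ((j : Fin d) → Fin (2 ^ (s.1 j : ℕ))), ∏ j, A j (s.1 j) (k j) =
      ∏ j, ∑ k : Fin (2 ^ (s.1 j : ℕ)), A j (s.1 j) k := by
    rw [Finset.prod_univ_sum]
    simp
  rw [h1]
  refine Finset.prod_le_prod (fun j _ => Finset.sum_nonneg fun k _ => hA0 _ _ _) fun j _ => ?_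
  rw [Fin.sum_univ_eq_sum_range (fun k => A j (s.1 j) k)]
  exact hAB j _

theorem sum_shape_le {d n : ℕ} (r : ℝ) (B : Fin d → ℕ → ℝ) (hB : ∀ j p, 0 ≤ B j p) :
    (2 : ℝ) ^ (-r * n) * ∑ s : Shape d n, ∏ j, B j (s.1 j) ≤
      ∏ j, ∑ p ∈ Finset.range (n + 1), (2 : ℝ) ^ (-r * p) * B j p := by
  rw [Finset.mul_sum]
  have h1 : ∀ s : Shape d n, (2 : ℝ) ^ (-r * n) * ∏ j, B j (s.1 j) =
      ∏ j, ((2 : ℝ) ^ (-r * ((s.1 j : ℕ) : ℝ)) * B j (s.1 j)) := by
    intro s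
    rw [Finset.prod_mul_distrib]
    congr 1
    rw [← Real.rpow_sum_of_pos (by norm_num : (0 : ℝ) < 2), ← Finset.mul_sum]
    congr 2
    have := s.2
    exact_mod_cast this.symm
  simp_rw [h1]
  calc ∑ s : Shape d n, ∏ j, ((2 : ℝ) ^ (-r * ((s.1 j : ℕ) : ℝ)) * B j (s.1 j))
      = ∑ s : Shape d n, (fun t : Fin d → Fin (n + 1) =>
          ∏ j, ((2 : ℝ) ^ (-r * ((t j : ℕ) : ℝ)) * B j (t j))) s.1 := rfl
    _ = ∑ t ∈ (univ : Finset (Shape d n)).image Subtype.val,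
          ∏ j, ((2 : ℝ) ^ (-r * ((t j : ℕ) : ℝ)) * B j (t j)) := by
        rw [Finset.sum_image fun a _ b _ h => Subtype.ext h]
    _ ≤ ∑ t : Fin d → Fin (n + 1), ∏ j, ((2 : ℝ) ^ (-r * ((t j : ℕ) : ℝ)) * B j (t j)) :=
        Finset.sum_le_sum_of_subset_of_nonneg (Finset.subset_univ _)
          fun t _ _ => Finset.prod_nonneg fun j _ => mul_nonneg (by positivity) (hB _ _)
    _ = ∏ j, ∑ p : Fin (n + 1), ((2 : ℝ) ^ (-r * ((p : ℕ) : ℝ)) * B j p) := by
        rw [Finset.prod_univ_sum]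
        simp
    _ = _ := by
        refine Finset.prod_congr rfl fun j _ => ?_
        rw [Fin.sum_univ_eq_sum_range (fun p => (2 : ℝ) ^ (-r * (p : ℝ)) * B j p)]

end Pool.Agent.Helper40.LinWidth
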