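import Mathlib

/-!
# One-dimensional bumps and their differences
-/

open Finset
open scoped ContDiff

namespace Pool.Agent.Helper40.LinWidth

/-- The step-modulated periodised bump `u ↦ σ(⌊u⌋) φ({u})`. -/
noncomputable def modBump (σ : ℤ → ℝ) (φ : ℝ → ℝ) (u : ℝ) : ℝ := σ ⌊u⌋ * φ (Int.fract u)

/-- Smooth functions vanishing outside `[1/8, 7/8]`. -/
structure GoodBump (φ : ℝ → ℝ) : Prop where
  smooth : ContDiff ℝ ∞ φ
  left : ∀ x, x < 1 / 8 → φ x = 0
  right : ∀ x, 7 / 8 < x → φ x = 0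

theorem GoodBump.deriv {φ : ℝ → ℝ} (h : GoodBump φ) : GoodBump (deriv φ) := by
  refine ⟨?_, ?_, ?_⟩
  · have := h.smooth
    rw [show (∞ : WithTop ℕ∞) = ∞ + 1 by rfl, contDiff_succ_iff_deriv] at this
    exact this.2.2
  · intro x hx
    have : φ =ᶠ[nhds x] fun _ => 0 :=
      Filter.eventually_of_mem (Iio_mem_nhds hx) fun y hy => h.left y hy
    rw [this.deriv_eq]
    simp
  · intro x hx
    have : φ =ᶠ[nhds x] fun _ => 0 :=
      Filter.eventually_of_mem (Ioi_mem_nhds hx) fun y hy => h.right y hy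
    rw [this.deriv_eq]
    simp

theorem modBump_eventually {φ : ℝ → ℝ} (h : GoodBump φ) (σ : ℤ → ℝ) (u : ℝ) :
    modBump σ φ =ᶠ[nhds u] fun v => σ ⌊u⌋ * φ (v - ⌊u⌋) := by
  rcases (Int.floor_le u).eq_or_lt with hu | hu
  · -- `u` is an integer
    refine Filter.eventually_of_mem (Ioo_mem_nhds (show u - 1 / 8 < u by linarith)
      (show u < u + 1 / 8 by linarith)) ?_
    intro v hv
    obtain ⟨hv1, hv2⟩ := hv
    simp only [modBump]
    rcases le_or_gt u v with huv | huv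
    · have hfl : ⌊v⌋ = ⌊u⌋ := by
        rw [Int.floor_eq_iff]
        constructor
        · linarith
        · linarith
      rw [Int.fract, hfl]
    · have hfl : ⌊v⌋ = ⌊u⌋ - 1 := by
        rw [Int.floor_eq_iff]
        push_cast
        constructor
        · linarith
        · linarith
      rw [Int.fract, hfl, h.right (v - ((⌊u⌋ - 1 : ℤ) : ℝ)) (by push_cast; linarith),
        h.left (v - ⌊u⌋) (by linarith)]
      simp
  · refine Filter.eventually_of_mem (Ioo_mem_nhds hu (Int.lt_floor_add_one u)) ?_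
    intro v hv
    obtain ⟨hv1, hv2⟩ := hv
    simp only [modBump]
    have hfl : ⌊v⌋ = ⌊u⌋ := by
      rw [Int.floor_eq_iff]
      exact ⟨hv1.le, hv2⟩
    rw [Int.fract, hfl]

theorem hasDerivAt_modBump {φ : ℝ → ℝ} (h : GoodBump φ) (σ : ℤ → ℝ) (u : ℝ) :
    HasDerivAt (modBump σ φ) (modBump σ (_root_.deriv φ) u) u := by
  refine HasDerivAt.congr_of_eventuallyEq ?_ (modBump_eventually h σ u)
  have h1 : HasDerivAt φ (_root_.deriv φ (u - ⌊u⌋)) (u - ⌊u⌋) :=
    (h.smooth.differentiable (by simp)).differentiableAt.hasDerivAt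
  have h2 : HasDerivAt (fun v => φ (v - ⌊u⌋)) (_root_.deriv φ (u - ⌊u⌋)) u := by
    have := h1.comp_sub_const u (⌊u⌋ : ℝ)
    exact this
  exact h2.const_mul _

theorem continuous_modBump {φ : ℝ → ℝ} (h : GoodBump φ) (σ : ℤ → ℝ) :
    Continuous (modBump σ φ) :=
  continuous_iff_continuousAt.2 fun u => (hasDerivAt_modBump h σ u).continuousAt

theorem hasDerivAt_fwdDiff_iter {f f' : ℝ → ℝ} (hf : ∀ u, HasDerivAt f (f' u) u) (h : ℝ) (l : ℕ) :
    ∀ u, HasDerivAt ((fwdDiff h)^[l] f) ((fwdDiff h)^[l] f' u) u := by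
  induction l with
  | zero => exact hf
  | succ l ih =>
    intro u
    rw [Function.iterate_succ_apply', Function.iterate_succ_apply']
    have h1 := (ih (u + h)).comp_add_const u h
    exact h1.sub (ih u)

theorem modBump_bound {φ : ℝ → ℝ} (h : GoodBump φ) :
    ∃ M : ℝ, 0 ≤ M ∧ ∀ σ : ℤ → ℝ, (∀ k, |σ k| ≤ 1) → ∀ u, |modBump σ φ u| ≤ M := by
  obtain ⟨M, hM⟩ := isCompact_Icc.exists_bound_of_continuousOn (s := Set.Icc (0 : ℝ) 1)
    h.smooth.continuous.continuousOn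
  refine ⟨max M 0, le_max_right _ _, fun σ hσ u => ?_⟩
  simp only [modBump]
  rw [abs_mul]
  have h1 := hM (Int.fract u) ⟨Int.fract_nonneg u, (Int.fract_lt_one u).le⟩
  rw [Real.norm_eq_abs] at h1
  calc |σ ⌊u⌋| * |φ (Int.fract u)| ≤ 1 * M := mul_le_mul (hσ _) h1 (abs_nonneg _) zero_le_one
    _ ≤ max M 0 := by rw [one_mul]; exact le_max_left _ _

theorem fwdDiff_iter_bound {f : ℝ → ℝ} {M : ℝ} (hf : ∀ u, |f u| ≤ M) (h : ℝ) (l : ℕ) :
    ∀ u, |(fwdDiff h)^[l] f u| ≤ 2 ^ l * M := by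
  induction l with
  | zero => simpa using hf
  | succ l ih =>
    intro u
    rw [Function.iterate_succ_apply']
    calc |fwdDiff h ((fwdDiff h)^[l] f) u|
        = |(fwdDiff h)^[l] f (u + h) - (fwdDiff h)^[l] f u| := rfl
      _ ≤ |(fwdDiff h)^[l] f (u + h)| + |(fwdDiff h)^[l] f u| := abs_sub _ _
      _ ≤ 2 ^ l * M + 2 ^ l * M := add_le_add (ih _) (ih _)
      _ = 2 ^ (l + 1) * M := by ring

theorem fwdDiff_modBump_bound (l : ℕ) : ∀ {φ : ℝ → ℝ}, GoodBump φ →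
    ∃ M : ℝ, 0 ≤ M ∧ ∀ σ : ℤ → ℝ, (∀ k, |σ k| ≤ 1) → ∀ h u,
      |(fwdDiff h)^[l] (modBump σ φ) u| ≤ M * |h| ^ l := by
  induction l with
  | zero =>
    intro φ hφ
    obtain ⟨M, hM0, hM⟩ := modBump_bound hφ
    exact ⟨M, hM0, fun σ hσ h u => by simpa using hM σ hσ u⟩
  | succ l ih =>
    intro φ hφ
    obtain ⟨M, hM0, hM⟩ := ih hφ.deriv
    refine ⟨M, hM0, fun σ hσ h u => ?_⟩
    rw [Function.iterate_succ_apply']
    have h1 := Convex.norm_image_sub_le_of_norm_hasDerivWithin_le (s := Set.univ)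
      (f := (fwdDiff h)^[l] (modBump σ φ))
      (f' := (fwdDiff h)^[l] (modBump σ (_root_.deriv φ))) (C := M * |h| ^ l) (x := u)
      (y := u + h)
      (fun x _ => (hasDerivAt_fwdDiff_iter (hasDerivAt_modBump hφ σ) h l x).hasDerivWithinAt)
      (fun x _ => by rw [Real.norm_eq_abs]; exact hM σ hσ h x) convex_univ (Set.mem_univ _)
      (Set.mem_univ _)
    rw [Real.norm_eq_abs, Real.norm_eq_abs] at h1
    calc |fwdDiff h ((fwdDiff h)^[l] (modBump σ φ)) u|
        = |(fwdDiff h)^[l] (modBump σ φ) (u + h) - (fwdDiff h)^[l] (modBump σ φ) u| := rfl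
      _ ≤ M * |h| ^ l * |u + h - u| := h1
      _ = M * |h| ^ (l + 1) := by rw [add_sub_cancel_left, pow_succ, mul_assoc]

/-- Both bounds together. -/
theorem modBump_diff_bound (l : ℕ) {φ : ℝ → ℝ} (hφ : GoodBump φ) :
    ∃ M : ℝ, 1 ≤ M ∧ ∀ σ : ℤ → ℝ, (∀ k, |σ k| ≤ 1) → ∀ h u,
      |∑ k ∈ Finset.range (l + 1), ((-1 : ℝ) ^ (l - k) * (l.choose k : ℝ)) *
        modBump σ φ (u + k * h)| ≤ M * min 1 (|h| ^ l) := by
  obtain ⟨M1, hM10, hM1⟩ := modBump_bound hφ
  obtain ⟨M2, hM20, hM2⟩ := fwdDiff_modBump_bound l hφ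
  refine ⟨max 1 (max (2 ^ l * M1) M2), le_max_left _ _, fun σ hσ h u => ?_⟩
  have heq : ∑ k ∈ Finset.range (l + 1), ((-1 : ℝ) ^ (l - k) * (l.choose k : ℝ)) *
        modBump σ φ (u + k * h) = (fwdDiff h)^[l] (modBump σ φ) u := by
    rw [fwdDiff_iter_eq_sum_shift]
    refine Finset.sum_congr rfl fun k _ => ?_
    rw [nsmul_eq_mul, zsmul_eq_mul]
    push_cast
    ring
  rw [heq]
  rcases le_total 1 (|h| ^ l) with h1 | h1
  · rw [min_eq_left h1, mul_one]
    refine (fwdDiff_iter_bound (hM1 σ hσ) h l u).trans ?_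
    exact (le_max_left _ _).trans (le_max_right _ _)
  · rw [min_eq_right h1]
    refine (hM2 σ hσ h u).trans ?_
    apply mul_le_mul_of_nonneg_right _ (by positivity)
    exact (le_max_right _ _).trans (le_max_right _ _)

end Pool.Agent.Helper40.LinWidth
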