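import Mathlib

/-!
# Linear widths of the mixed Hölder–Nikol'skii class in the uniform norm: definitions
-/

open MeasureTheory
open scoped ENNReal

namespace Pool.Agent.Helper40.LinWidth

/-- `0 < 2π`, in the form Mathlib wants for the circle `ℝ / 2πℤ`. -/
instance factTwoPi : Fact (0 < 2 * Real.pi) := ⟨Real.two_pi_pos⟩

/-- The torus `𝕋^d = (ℝ / 2πℤ)^d`. -/
abbrev Torus (d : ℕ) : Type := Fin d → AddCircle (2 * Real.pi)

/-- The normalised Lebesgue measure on the torus. -/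
noncomputable abbrev torusMeasure (d : ℕ) : Measure (Torus d) :=
  Measure.pi fun _ : Fin d => (AddCircle.haarAddCircle : Measure (AddCircle (2 * Real.pi)))

/-- The Banach space `L_∞(𝕋^d)` with scalars `𝕜` (real or complex). -/
abbrev LInfty (𝕜 : Type*) [RCLike 𝕜] (d : ℕ) : Type _ := Lp 𝕜 ∞ (torusMeasure d)

/-- The mixed difference `Δ^{l,e}_t f = ∏_{j ∈ e} Δ^l_{t_j, j} f`, where `Δ^l_{t,j}` is the `l`-th
difference with step `t` in the `j`-th variable, written out: the sum over all `k` with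
`k j ∈ {0, …, l}` for `j ∈ e` and `k j = 0` for `j ∉ e` of
`∏_{j ∈ e} (-1)^(l - k j) * (l choose k j)` times the value of `f` at `x + ∑_{j ∈ e} (k j) (t j) e_j`. -/
noncomputable def mixedDiff {𝕜 : Type*} [RCLike 𝕜] {d : ℕ} (l : ℕ) (e : Finset (Fin d))
    (t : Fin d → ℝ) (f : Torus d → 𝕜) (x : Torus d) : 𝕜 :=
  ∑ k ∈ Fintype.piFinset (fun j : Fin d => if j ∈ e then Finset.range (l + 1) else {0}),
    ((∏ j ∈ e, ((-1 : ℝ) ^ (l - k j) * (l.choose (k j) : ℝ)) : ℝ) : 𝕜) *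
      f (fun j => x j + (((k j : ℝ) * t j : ℝ) : AddCircle (2 * Real.pi)))

/-- The class `H^r_∞` (with differences of order `l`): all `f` in `L_∞(𝕋^d)` with `‖f‖_∞ ≤ 1` and
`‖Δ^{l,e}_t f‖_∞ ≤ ∏_{j ∈ e} |t_j|^r` for all nonempty `e` and all `t`. -/
def mixedHolderClass (𝕜 : Type*) [RCLike 𝕜] (d : ℕ) (r : ℝ) (l : ℕ) : Set (LInfty 𝕜 d) :=
  {f | ‖f‖ ≤ 1 ∧ ∀ e : Finset (Fin d), e.Nonempty → ∀ t : Fin d → ℝ,
    ∀ᵐ x ∂(torusMeasure d), ‖mixedDiff l e t (f : Torus d → 𝕜) x‖ ≤ ∏ j ∈ e, |t j| ^ r}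

/-- The linear width `λ_m(F, X)`: the infimum, over the bounded linear operators `A : X → X` of
rank at most `m`, of the supremum of `‖f - A f‖` over `f ∈ F`. -/
noncomputable def linearWidth (𝕜 : Type*) [RCLike 𝕜] {X : Type*} [NormedAddCommGroup X]
    [NormedSpace 𝕜 X] (F : Set X) (m : ℕ) : ℝ≥0∞ :=
  ⨅ A : {A : X →L[𝕜] X // (A : X →ₗ[𝕜] X).rank ≤ (m : Cardinal)}, ⨆ f ∈ F, ‖f - A.1 f‖ₑ

/-- The sequence `b_m = m^(-r) (log m)^((d-1)(r+1))`. -/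
noncomputable def orderSeq (d : ℕ) (r : ℝ) (m : ℕ) : ℝ :=
  (m : ℝ) ^ (-r) * Real.log m ^ (((d : ℝ) - 1) * (r + 1))

end Pool.Agent.Helper40.LinWidth
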