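import Mathlib
import Pool.Agent.Helper40.LinWidth.Defs
import Pool.Agent.Helper40.LinWidth.Bump

/-!
# One-dimensional bumps on the circle
-/

open Finset
open scoped ContDiff

namespace Pool.Agent.Helper40.LinWidth

/-- A fixed smooth bump. -/
noncomputable def bump0 : ContDiffBump (1 / 2 : ℝ) where
  rIn := 1 / 8
  rOut := 3 / 8
  rIn_pos := by norm_num
  rIn_lt_rOut := by norm_num

/-- The same, as a function. -/
noncomputable def phi (x : ℝ) : ℝ := bump0 x

theorem phi_nonneg (x : ℝ) : 0 ≤ phi x := bump0.nonneg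

theorem phi_le_one (x : ℝ) : phi x ≤ 1 := bump0.le_one

theorem phi_mid (x : ℝ) (h1 : 3 / 8 ≤ x) (h2 : x ≤ 5 / 8) : phi x = 1 := by
  apply bump0.one_of_mem_closedBall
  rw [Metric.mem_closedBall, Real.dist_eq, abs_le]
  constructor
  · show -(1 / 8 : ℝ) ≤ x - 1 / 2
    linarith
  · show x - 1 / 2 ≤ (1 / 8 : ℝ)
    linarith

theorem phi_good : GoodBump phi := by
  refine ⟨bump0.contDiff, ?_, ?_⟩
  · intro x hx
    apply bump0.zero_of_le_dist
    rw [Real.dist_eq]
    show (3 / 8 : ℝ) ≤ |x - 1 / 2|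
    rw [le_abs]
    right; linarith
  · intro x hx
    apply bump0.zero_of_le_dist
    rw [Real.dist_eq]
    show (3 / 8 : ℝ) ≤ |x - 1 / 2|
    rw [le_abs]
    left; linarith

/-- Indicator of a residue class modulo `2^s`. -/
noncomputable def del (s k : ℕ) (i : ℤ) : ℝ := if i % (2 ^ s : ℤ) = (k : ℤ) then 1 else 0

theorem del_add (s k : ℕ) (i : ℤ) : del s k (i + 2 ^ s) = del s k i := by
  unfold del
  rw [Int.add_emod_right]

/-- The bump attached to the `k`-th dyadic interval of level `s`, on the line. -/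
noncomputable def wreal (s k : ℕ) (x : ℝ) : ℝ := modBump (del s k) phi (2 ^ s * x / (2 * Real.pi))

theorem wreal_periodic (s k : ℕ) : Function.Periodic (wreal s k) (2 * Real.pi) := by
  intro x
  unfold wreal modBump
  have h1 : (2 : ℝ) ^ s * (x + 2 * Real.pi) / (2 * Real.pi) =
      2 ^ s * x / (2 * Real.pi) + ((2 ^ s : ℤ) : ℝ) := by
    have : (2 * Real.pi) ≠ 0 := Real.two_pi_pos.ne'
    push_cast
    field_simp
  rw [h1, Int.floor_add_intCast, del_add, Int.fract_add_intCast]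

/-- The bump attached to the `k`-th dyadic interval of level `s`, on the circle. -/
noncomputable def wave (s k : ℕ) : AddCircle (2 * Real.pi) → ℝ := (wreal_periodic s k).lift

theorem wave_coe (s k : ℕ) (x : ℝ) : wave s k (x : AddCircle (2 * Real.pi)) = wreal s k x :=
  (wreal_periodic s k).lift_coe x

theorem continuous_wave (s k : ℕ) : Continuous (wave s k) := by
  have hq : Topology.IsQuotientMap ((↑) : ℝ → AddCircle (2 * Real.pi)) :=
    QuotientAddGroup.isQuotientMap_mk _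
  rw [hq.continuous_iff]
  have : wave s k ∘ ((↑) : ℝ → AddCircle (2 * Real.pi)) = wreal s k := by
    ext x
    exact wave_coe s k x
  rw [this]
  unfold wreal
  have h := continuous_modBump phi_good (del s k)
  fun_prop

theorem wave_nonneg (s k : ℕ) (x : AddCircle (2 * Real.pi)) : 0 ≤ wave s k x := by
  obtain ⟨x, rfl⟩ := QuotientAddGroup.mk_surjective x
  rw [show wave s k (QuotientAddGroup.mk x) = wreal s k x from wave_coe s k x]
  unfold wreal modBump del
  split_ifs
  · rw [one_mul]; exact phi_nonneg _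
  · rw [zero_mul]

/-- A bounded combination of residue indicators is bounded. -/
theorem sum_del_abs_le (s : ℕ) (ε : ℕ → ℝ) (hε : ∀ k, |ε k| ≤ 1) (i : ℤ) :
    |∑ k ∈ Finset.range (2 ^ s), ε k * del s k i| ≤ 1 := by
  have hpos : (0 : ℤ) < 2 ^ s := by positivity
  obtain ⟨k0, hk0⟩ : ∃ k0 : ℕ, (k0 : ℤ) = i % (2 ^ s : ℤ) :=
    ⟨(i % (2 ^ s : ℤ)).toNat, Int.toNat_of_nonneg (Int.emod_nonneg _ hpos.ne')⟩
  have h1 : ∀ k, del s k i = if k = k0 then 1 else 0 := by
    intro k
    unfold del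
    rw [← hk0]
    by_cases h : k = k0
    · rw [if_pos h, if_pos (by rw [h])]
    · rw [if_neg h, if_neg (by intro h2; exact h (by exact_mod_cast h2.symm))]
  simp_rw [h1]
  simp only [mul_ite, mul_one, mul_zero, Finset.sum_ite_eq']
  split_ifs
  · exact hε _
  · simp

/-- The sum of the absolute values of the `l`-th differences of the bumps of level `s`. -/
theorem sum_wave_diff_le (l : ℕ) : ∃ M : ℝ, 1 ≤ M ∧ ∀ (s : ℕ) (t : ℝ)
    (x : AddCircle (2 * Real.pi)),
    ∑ k ∈ Finset.range (2 ^ s), |∑ i ∈ Finset.range (l + 1),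
      ((-1 : ℝ) ^ (l - i) * (l.choose i : ℝ)) *
        wave s k (x + (((i : ℝ) * t : ℝ) : AddCircle (2 * Real.pi)))| ≤
      M * min 1 ((2 ^ s * |t|) ^ l) := by
  obtain ⟨M, hM1, hM⟩ := modBump_diff_bound l phi_good
  refine ⟨M, hM1, fun s t x => ?_⟩
  obtain ⟨x, rfl⟩ := QuotientAddGroup.mk_surjective x
  set u : ℝ := 2 ^ s * x / (2 * Real.pi) with hu
  set h : ℝ := 2 ^ s * t / (2 * Real.pi) with hh
  have hw : ∀ k i : ℕ, wave s k ((x : AddCircle (2 * Real.pi)) +
      (((i : ℝ) * t : ℝ) : AddCircle (2 * Real.pi))) = modBump (del s k) phi (u + i * h) := by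
    intro k i
    rw [← AddCircle.coe_add, wave_coe]
    unfold wreal
    congr 1
    rw [hu, hh]
    ring
  have hD : ∀ k, |∑ i ∈ Finset.range (l + 1), ((-1 : ℝ) ^ (l - i) * (l.choose i : ℝ)) *
        wave s k ((x : AddCircle (2 * Real.pi)) +
          (((i : ℝ) * t : ℝ) : AddCircle (2 * Real.pi)))| =
      |∑ i ∈ Finset.range (l + 1), ((-1 : ℝ) ^ (l - i) * (l.choose i : ℝ)) *
        modBump (del s k) phi (u + i * h)| := by
    intro k
    congr 1
    exact Finset.sum_congr rfl fun i _ => by rw [hw]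
  show ∑ k ∈ Finset.range (2 ^ s), |∑ i ∈ Finset.range (l + 1),
      ((-1 : ℝ) ^ (l - i) * (l.choose i : ℝ)) *
        wave s k ((x : AddCircle (2 * Real.pi)) +
          (((i : ℝ) * t : ℝ) : AddCircle (2 * Real.pi)))| ≤ _
  simp_rw [hD]
  set Dk : ℕ → ℝ := fun k => ∑ i ∈ Finset.range (l + 1),
    ((-1 : ℝ) ^ (l - i) * (l.choose i : ℝ)) * modBump (del s k) phi (u + i * h) with hDk
  set ε : ℕ → ℝ := fun k => if 0 ≤ Dk k then 1 else -1 with hε
  have hε1 : ∀ k, |ε k| ≤ 1 := by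
    intro k
    rw [hε]
    dsimp only
    split_ifs <;> simp
  have hεD : ∀ k, |Dk k| = ε k * Dk k := by
    intro k
    rw [hε]
    dsimp only
    split_ifs with h0
    · rw [abs_of_nonneg h0, one_mul]
    · rw [abs_of_neg (not_le.1 h0)]; ring
  have hsum : ∑ k ∈ Finset.range (2 ^ s), |Dk k| =
      ∑ i ∈ Finset.range (l + 1), ((-1 : ℝ) ^ (l - i) * (l.choose i : ℝ)) *
        modBump (fun j => ∑ k ∈ Finset.range (2 ^ s), ε k * del s k j) phi (u + i * h) := by
    simp_rw [hεD, hDk, Finset.mul_sum]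
    rw [Finset.sum_comm]
    refine Finset.sum_congr rfl fun i _ => ?_
    unfold modBump
    rw [Finset.sum_mul, Finset.mul_sum]
    refine Finset.sum_congr rfl fun k _ => ?_
    ring
  rw [hsum]
  refine (le_abs_self _).trans ((hM _ (fun j => sum_del_abs_le s ε hε1 j) h u).trans ?_)
  apply mul_le_mul_of_nonneg_left _ (by linarith)
  apply min_le_min le_rfl
  apply pow_le_pow_left₀ (abs_nonneg _)
  rw [hh, abs_div, abs_mul, abs_of_pos Real.two_pi_pos, abs_of_pos (show (0 : ℝ) < 2 ^ s by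
    positivity)]
  apply div_le_self (by positivity)
  have := Real.pi_gt_three
  linarith

/-- The bumps of level `s` sum up to at most one. -/
theorem sum_wave_le (s : ℕ) (x : AddCircle (2 * Real.pi)) :
    ∑ k ∈ Finset.range (2 ^ s), |wave s k x| ≤ 1 := by
  obtain ⟨x, rfl⟩ := QuotientAddGroup.mk_surjective x
  have h1 : ∀ k, |wave s k (QuotientAddGroup.mk x)| =
      (1 * del s k ⌊2 ^ s * x / (2 * Real.pi)⌋) * phi (Int.fract (2 ^ s * x / (2 * Real.pi))) := by
    intro k
    rw [abs_of_nonneg (wave_nonneg _ _ _),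
      show wave s k (QuotientAddGroup.mk x) = wreal s k x from wave_coe s k x]
    unfold wreal modBump
    ring
  simp_rw [h1]
  rw [← Finset.sum_mul]
  have h2 := sum_del_abs_le s (fun _ => 1) (fun _ => by simp) ⌊2 ^ s * x / (2 * Real.pi)⌋
  have h3 := le_abs_self (∑ k ∈ Finset.range (2 ^ s), 1 * del s k ⌊2 ^ s * x / (2 * Real.pi)⌋)
  have h4 := phi_nonneg (Int.fract (2 ^ s * x / (2 * Real.pi)))
  have h5 := phi_le_one (Int.fract (2 ^ s * x / (2 * Real.pi)))
  nlinarith

/-- Values at the points of a fine grid. -/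
theorem wave_grid {s M a k : ℕ} (hs : s ≤ M) (ha : a < 2 ^ M) :
    wave s k ((2 * Real.pi * a / 2 ^ M : ℝ) : AddCircle (2 * Real.pi)) =
      if a / 2 ^ (M - s) = k then phi (Int.fract ((a : ℝ) / 2 ^ (M - s))) else 0 := by
  rw [wave_coe]
  unfold wreal modBump
  have h1 : (2 : ℝ) ^ s * (2 * Real.pi * a / 2 ^ M) / (2 * Real.pi) = (a : ℝ) / 2 ^ (M - s) := by
    have h2 : (2 : ℝ) ^ M = 2 ^ s * 2 ^ (M - s) := by
      rw [← pow_add, Nat.add_sub_cancel' hs]
    have : (2 * Real.pi) ≠ 0 := Real.two_pi_pos.ne'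
    have : Real.pi ≠ 0 := Real.pi_pos.ne'
    rw [h2]
    field_simp
  rw [h1]
  have h3 : ⌊(a : ℝ) / 2 ^ (M - s)⌋ = ((a / 2 ^ (M - s) : ℕ) : ℤ) := by
    have := Int.floor_div_natCast (a : ℝ) (2 ^ (M - s))
    rw [Int.floor_natCast] at this
    push_cast at this ⊢
    exact this
  have h4 : ((a / 2 ^ (M - s) : ℕ) : ℤ) % (2 ^ s : ℤ) = ((a / 2 ^ (M - s) : ℕ) : ℤ) := by
    apply Int.emod_eq_of_lt (by positivity)
    have h5 : a / 2 ^ (M - s) < 2 ^ s := by
      apply Nat.div_lt_of_lt_mul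
      rw [← pow_add, Nat.sub_add_cancel hs]
      exact ha
    exact_mod_cast h5
  unfold del
  rw [h3, h4]
  by_cases h6 : a / 2 ^ (M - s) = k
  · rw [if_pos h6, if_pos (by exact_mod_cast h6), one_mul]
  · rw [if_neg h6, if_neg (by intro h7; exact h6 (by exact_mod_cast h7)), zero_mul]

end Pool.Agent.Helper40.LinWidth
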