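import Mathlib
import Pool.Agent.Helper40.LinWidth.Sums
import Pool.Agent.Helper40.LinWidth.Wave

/-!
# The functions `∑_R b_R ψ_R` on the torus
-/

open Finset MeasureTheory
open scoped ENNReal

namespace Pool.Agent.Helper40.LinWidth

variable {𝕜 : Type*} [RCLike 𝕜]

/-- `∑_R b_R ψ_R`. -/
noncomputable def torusFun {d n : ℕ} (b : Idx d n → 𝕜) (x : Torus d) : 𝕜 :=
  ∑ R : Idx d n, b R * ((∏ j, wave (R.1.1 j) (R.2 j) (x j) : ℝ) : 𝕜)

theorem continuous_torusFun {d n : ℕ} (b : Idx d n → 𝕜) : Continuous (torusFun b) := by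
  unfold torusFun
  refine continuous_finsetSum _ fun R _ => continuous_const.mul ?_
  refine RCLike.continuous_ofReal.comp ?_
  refine continuous_finsetProd _ fun j _ => ?_
  exact (continuous_wave _ _).comp (continuous_apply j)

/-- The value at a grid point. -/
theorem torusFun_grid {d n M : ℕ} (hM : n ≤ M) (b : Idx d n → 𝕜) (y : Grid d M) :
    torusFun b (fun j => ((2 * Real.pi * (y j : ℕ) / 2 ^ M : ℝ) : AddCircle (2 * Real.pi))) =
      ∑ s : Shape d n, (bumpVal phi s y : 𝕜) * b (rect hM s y) := by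
  unfold torusFun
  rw [Fintype.sum_sigma]
  refine Finset.sum_congr rfl fun s _ => ?_
  refine (Fintype.sum_eq_single (rect hM s y).2 ?_).trans ?_
  rotate_left
  · rw [mul_comm]
    congr 2
    unfold bumpVal
    refine Finset.prod_congr rfl fun j _ => ?_
    rw [wave_grid ((shape_le s j).trans hM) (y j).2]
    exact if_pos rfl
  · intro k hk
    have : ∃ j, k j ≠ (rect hM s y).2 j := by
      by_contra hcon
      push Not at hcon
      exact hk (funext hcon)
    obtain ⟨j, hj⟩ := this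
    rw [Finset.prod_eq_zero (Finset.mem_univ j)]
    · simp
    · rw [wave_grid ((shape_le s j).trans hM) (y j).2, if_neg]
      intro h
      apply hj
      apply Fin.ext
      exact h.symm

/-- The one-dimensional factor in a mixed difference of a product of bumps. -/
noncomputable def factor {d : ℕ} (l : ℕ) (e : Finset (Fin d)) (t : Fin d → ℝ) (x : Torus d)
    (j : Fin d) (p k : ℕ) : ℝ :=
  ∑ i ∈ (if j ∈ e then Finset.range (l + 1) else {0}),
    (if j ∈ e then (-1 : ℝ) ^ (l - i) * (l.choose i : ℝ) else 1) *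
      wave p k (x j + (((i : ℝ) * t j : ℝ) : AddCircle (2 * Real.pi)))

theorem mixedDiff_torusFun {d n : ℕ} (l : ℕ) (e : Finset (Fin d)) (t : Fin d → ℝ)
    (b : Idx d n → 𝕜) (x : Torus d) :
    mixedDiff l e t (torusFun b) x =
      ∑ R : Idx d n, b R * ((∏ j, factor l e t x j (R.1.1 j) (R.2 j) : ℝ) : 𝕜) := by
  unfold mixedDiff torusFun
  simp_rw [Finset.mul_sum]
  rw [Finset.sum_comm]
  refine Finset.sum_congr rfl fun R _ => ?_
  have h1 : (∏ j, factor l e t x j (R.1.1 j) (R.2 j) : ℝ) =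
      ∑ k ∈ Fintype.piFinset (fun j : Fin d => if j ∈ e then Finset.range (l + 1) else {0}),
        (∏ j ∈ e, ((-1 : ℝ) ^ (l - k j) * (l.choose (k j) : ℝ))) *
        ∏ j, wave (R.1.1 j) (R.2 j) (x j + (((k j : ℝ) * t j : ℝ) : AddCircle (2 * Real.pi))) := by
    unfold factor
    rw [Finset.prod_univ_sum]
    refine Finset.sum_congr rfl fun k _ => ?_
    rw [Finset.prod_mul_distrib]
    congr 1
    rw [Finset.prod_ite_mem]
    simp
  rw [h1]
  push_cast
  rw [Finset.mul_sum]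
  refine Finset.sum_congr rfl fun k _ => ?_
  ring

theorem norm_mixedDiff_torusFun_le {d n : ℕ} (l : ℕ) (e : Finset (Fin d)) (t : Fin d → ℝ)
    (b : Idx d n → 𝕜) {β : ℝ} (hβ : 0 ≤ β) (hb : ∀ R, ‖b R‖ ≤ β) (x : Torus d)
    (B : Fin d → ℕ → ℝ)
    (hB : ∀ j p, ∑ k ∈ Finset.range (2 ^ p), |factor l e t x j p k| ≤ B j p) :
    ‖mixedDiff l e t (torusFun b) x‖ ≤ β * ∑ s : Shape d n, ∏ j, B j (s.1 j) := by
  rw [mixedDiff_torusFun]
  calc ‖∑ R : Idx d n, b R * ((∏ j, factor l e t x j (R.1.1 j) (R.2 j) : ℝ) : 𝕜)‖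
      ≤ ∑ R : Idx d n, ‖b R * ((∏ j, factor l e t x j (R.1.1 j) (R.2 j) : ℝ) : 𝕜)‖ :=
        norm_sum_le _ _
    _ ≤ ∑ R : Idx d n, β * ∏ j, |factor l e t x j (R.1.1 j) (R.2 j)| := by
        refine Finset.sum_le_sum fun R _ => ?_
        rw [norm_mul, RCLike.norm_ofReal, Finset.abs_prod]
        exact mul_le_mul_of_nonneg_right (hb R) (Finset.prod_nonneg fun j _ => abs_nonneg _)
    _ = β * ∑ R : Idx d n, ∏ j, |factor l e t x j (R.1.1 j) (R.2 j)| := by rw [Finset.mul_sum]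
    _ ≤ β * ∑ s : Shape d n, ∏ j, B j (s.1 j) := by
        apply mul_le_mul_of_nonneg_left _ hβ
        exact sum_idx_le (fun j p k => |factor l e t x j p k|) (fun _ _ _ => abs_nonneg _) B hB

theorem mixedDiff_empty {d : ℕ} (l : ℕ) (t : Fin d → ℝ) (f : Torus d → 𝕜) (x : Torus d) :
    mixedDiff l ∅ t f x = f x := by
  unfold mixedDiff
  have h1 : Fintype.piFinset (fun j : Fin d => if j ∈ (∅ : Finset (Fin d)) then
      Finset.range (l + 1) else {0}) = {fun _ => 0} := by
    ext k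
    simp [funext_iff]
  rw [h1]
  simp

/-- All mixed differences of `2^(-rn) ∑_R b_R ψ_R`, `|b_R| ≤ β`, are at most
`C β ∏_{j ∈ e} |t_j|^r`. -/
theorem mixedDiff_bound (d : ℕ) {r : ℝ} (hr : 0 < r) {l : ℕ} (hl : r < l) :
    ∃ C : ℝ, 0 < C ∧ ∀ (n : ℕ) (b : Idx d n → 𝕜) (β : ℝ), 0 ≤ β → (∀ R, ‖b R‖ ≤ β) →
      ∀ (e : Finset (Fin d)) (t : Fin d → ℝ) (x : Torus d),
        (2 : ℝ) ^ (-r * n) * ‖mixedDiff l e t (torusFun b) x‖ ≤ C * β * ∏ j ∈ e, |t j| ^ r := by
  obtain ⟨M, hM1, hM⟩ := sum_wave_diff_le l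
  obtain ⟨C1, hC10, hC1⟩ := sum_scale_le hr hl
  obtain ⟨C2, hC20, hC2⟩ := sum_geom_le hr
  set C3 : ℝ := max 1 (max (M * C1) C2) with hC3
  have hC31 : 1 ≤ C3 := le_max_left _ _
  refine ⟨C3 ^ d, by positivity, fun n b β hβ hb e t x => ?_⟩
  set B : Fin d → ℕ → ℝ := fun j p => if j ∈ e then M * min 1 ((2 ^ p * |t j|) ^ l) else 1 with hBdef
  have hB0 : ∀ j p, 0 ≤ B j p := by
    intro j p
    rw [hBdef]
    dsimp only
    split_ifs
    · exact mul_nonneg (by linarith) (le_min zero_le_one (by positivity))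
    · exact zero_le_one
  have hB : ∀ j p, ∑ k ∈ Finset.range (2 ^ p), |factor l e t x j p k| ≤ B j p := by
    intro j p
    rw [hBdef]
    dsimp only
    unfold factor
    by_cases hj : j ∈ e
    · simp only [hj, if_true]
      exact hM p (t j) (x j)
    · simp only [hj, if_false, Finset.sum_singleton, one_mul]
      exact sum_wave_le p _
  have h1 := norm_mixedDiff_torusFun_le l e t b hβ hb x B hB
  have h2 : ∀ j, ∑ p ∈ Finset.range (n + 1), (2 : ℝ) ^ (-r * p) * B j p ≤
      C3 * (if j ∈ e then |t j| ^ r else 1) := by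
    intro j
    rw [hBdef]
    dsimp only
    by_cases hj : j ∈ e
    · simp only [hj, if_true]
      calc ∑ p ∈ Finset.range (n + 1), (2 : ℝ) ^ (-r * p) * (M * min 1 ((2 ^ p * |t j|) ^ l))
          = M * ∑ p ∈ Finset.range (n + 1), (2 : ℝ) ^ (-r * p) * min 1 ((2 ^ p * |t j|) ^ l) := by
            rw [Finset.mul_sum]
            exact Finset.sum_congr rfl fun p _ => by ring
        _ ≤ M * (C1 * |t j| ^ r) := by
            apply mul_le_mul_of_nonneg_left (hC1 _ (abs_nonneg _) _) (by linarith)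
        _ = (M * C1) * |t j| ^ r := by ring
        _ ≤ C3 * |t j| ^ r := by
            apply mul_le_mul_of_nonneg_right _ (by positivity)
            exact (le_max_left _ _).trans (le_max_right _ _)
    · simp only [hj, if_false, mul_one]
      exact (hC2 _).trans ((le_max_right _ _).trans (le_max_right _ _))
  calc (2 : ℝ) ^ (-r * n) * ‖mixedDiff l e t (torusFun b) x‖
      ≤ (2 : ℝ) ^ (-r * n) * (β * ∑ s : Shape d n, ∏ j, B j (s.1 j)) :=
        mul_le_mul_of_nonneg_left h1 (by positivity)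
    _ = β * ((2 : ℝ) ^ (-r * n) * ∑ s : Shape d n, ∏ j, B j (s.1 j)) := by ring
    _ ≤ β * ∏ j, ∑ p ∈ Finset.range (n + 1), (2 : ℝ) ^ (-r * p) * B j p :=
        mul_le_mul_of_nonneg_left (sum_shape_le r B hB0) hβ
    _ ≤ β * ∏ j, (C3 * (if j ∈ e then |t j| ^ r else 1)) := by
        apply mul_le_mul_of_nonneg_left _ hβ
        exact Finset.prod_le_prod (fun j _ => Finset.sum_nonneg fun p _ =>
          mul_nonneg (by positivity) (hB0 _ _)) fun j _ => h2 j
    _ = C3 ^ d * β * ∏ j ∈ e, |t j| ^ r := by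
        rw [Finset.prod_mul_distrib, Finset.prod_const, Finset.prod_ite_mem]
        simp only [Finset.card_univ, Fintype.card_fin, Finset.univ_inter]
        ring

end Pool.Agent.Helper40.LinWidth
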