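import Mathlib
import Pool.Agent.Helper40.LinWidth.Member

/-!
# The lower bound for linear widths, in terms of the level `n`
-/

open Finset MeasureTheory
open scoped ENNReal

namespace Pool.Agent.Helper40.LinWidth

variable {𝕜 : Type*} [RCLike 𝕜]

theorem ae_norm_le_lp {d : ℕ} (f : LInfty 𝕜 d) : ∀ᵐ x ∂(torusMeasure d), ‖f x‖ ≤ ‖f‖ := by
  have h := ae_le_lpNorm_exponent_top (Lp.memLp f)
  have h2 : lpNorm (f : Torus d → 𝕜) ∞ (torusMeasure d) = ‖f‖ := by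
    rw [Lp.norm_def, toReal_eLpNorm (Lp.aestronglyMeasurable f)]
  rw [h2] at h
  exact h

/-- The essential supremum norm of a continuous function dominates its values. -/
theorem norm_apply_le_norm_toLp {d : ℕ} (F : C(Torus d, 𝕜)) (x : Torus d) :
    ‖F x‖ ≤ ‖ContinuousMap.toLp (E := 𝕜) ∞ (torusMeasure d) 𝕜 F‖ := by
  set g := ContinuousMap.toLp (E := 𝕜) ∞ (torusMeasure d) 𝕜 F with hg
  have h1 : ∀ᵐ x ∂(torusMeasure d), ‖F x‖ ≤ ‖g‖ := by
    filter_upwards [ae_norm_le_lp g, ContinuousMap.coeFn_toLp (torusMeasure d) (𝕜 := 𝕜) (p := ∞) F]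
      with x hx1 hx2
    rw [← hx2]
    exact hx1
  have h2 := Measure.dense_of_ae h1
  have h3 : IsClosed {x | ‖F x‖ ≤ ‖g‖} := isClosed_le (F.continuous.norm) continuous_const
  have h4 := h2.closure_eq
  rw [h3.closure_eq] at h4
  have : x ∈ {x | ‖F x‖ ≤ ‖g‖} := by rw [h4]; trivial
  exact this

/-- Mixed differences only depend on the function up to null sets. -/
theorem mixedDiff_congr_ae {d : ℕ} (l : ℕ) (e : Finset (Fin d)) (t : Fin d → ℝ)
    {f g : Torus d → 𝕜} (h : f =ᵐ[torusMeasure d] g) :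
    mixedDiff l e t f =ᵐ[torusMeasure d] mixedDiff l e t g := by
  have h1 : ∀ k ∈ Fintype.piFinset (fun j : Fin d => if j ∈ e then Finset.range (l + 1) else {0}),
      ∀ᵐ x ∂(torusMeasure d),
        f (fun j => x j + (((k j : ℝ) * t j : ℝ) : AddCircle (2 * Real.pi))) =
        g (fun j => x j + (((k j : ℝ) * t j : ℝ) : AddCircle (2 * Real.pi))) := by
    intro k _
    have h2 := (measurePreserving_add_right (torusMeasure d)
      (fun j => (((k j : ℝ) * t j : ℝ) : AddCircle (2 * Real.pi)))).quasiMeasurePreserving.ae h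
    exact h2
  have h3 := (Finset.eventually_all _).2 h1
  filter_upwards [h3] with x hx
  unfold mixedDiff
  exact Finset.sum_congr rfl fun k hk => by rw [hx k hk]

theorem mixedDiff_smul {d : ℕ} (l : ℕ) (e : Finset (Fin d)) (t : Fin d → ℝ) (c : 𝕜)
    (f : Torus d → 𝕜) (x : Torus d) :
    mixedDiff l e t (fun y => c * f y) x = c * mixedDiff l e t f x := by
  unfold mixedDiff
  rw [Finset.mul_sum]
  exact Finset.sum_congr rfl fun k _ => by ring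

/-- The linear map `b ↦ ∑_R b_R ψ_R` into continuous functions. -/
noncomputable def torusMap (𝕜 : Type*) [RCLike 𝕜] (d n : ℕ) :
    EuclideanSpace 𝕜 (Idx d n) →ₗ[𝕜] C(Torus d, 𝕜) where
  toFun b := ⟨torusFun b.ofLp, continuous_torusFun b.ofLp⟩
  map_add' b c := by
    ext x
    simp only [torusFun, ContinuousMap.coe_mk, ContinuousMap.add_apply, WithLp.ofLp_add,
      Pi.add_apply, add_mul, Finset.sum_add_distrib]
  map_smul' a b := by
    ext x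
    simp only [torusFun, ContinuousMap.coe_mk, ContinuousMap.smul_apply, WithLp.ofLp_smul,
      Pi.smul_apply, smul_eq_mul, RingHom.id_apply, Finset.mul_sum, mul_assoc]

/-- A continuous function with bounded mixed differences lies in the class. -/
theorem toLp_mem_class {d : ℕ} {r : ℝ} {l : ℕ} (F : C(Torus d, 𝕜)) (h0 : ∀ x, ‖F x‖ ≤ 1)
    (h1 : ∀ e : Finset (Fin d), e.Nonempty → ∀ t x, ‖mixedDiff l e t F x‖ ≤ ∏ j ∈ e, |t j| ^ r) :
    ContinuousMap.toLp (E := 𝕜) ∞ (torusMeasure d) 𝕜 F ∈ mixedHolderClass 𝕜 d r l := by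
  have hae := ContinuousMap.coeFn_toLp (torusMeasure d) (𝕜 := 𝕜) (p := ∞) F
  refine ⟨?_, fun e he t => ?_⟩
  · have h2 : ∀ᵐ x ∂(torusMeasure d),
        ‖(ContinuousMap.toLp (E := 𝕜) ∞ (torusMeasure d) 𝕜 F) x‖ ≤ 1 := by
      filter_upwards [hae] with x hx
      rw [hx]
      exact h0 x
    have h3 := Lp.norm_le_of_ae_bound zero_le_one h2
    simpa using h3
  · filter_upwards [mixedDiff_congr_ae l e t hae] with x hx
    rw [hx]
    exact h1 e he t x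

/-- The lower bound at level `n`. -/
theorem lower_level (𝕜 : Type*) [RCLike 𝕜] (d : ℕ) {r : ℝ} (hr : 0 < r) {l : ℕ} (hl : r < l) :
    ∃ c0 c1 : ℝ, 0 < c0 ∧ 0 < c1 ∧ ∀ n m : ℕ,
      (m : ℝ) ≤ c0 * (Fintype.card (Shape d n) * 2 ^ n) →
      ENNReal.ofReal (c1 * (Fintype.card (Shape d n) * (2 : ℝ) ^ (-r * n))) ≤
        linearWidth 𝕜 (mixedHolderClass 𝕜 d r l) m := by
  obtain ⟨c0, hc0, hcore⟩ := geom_core 𝕜 d
  obtain ⟨C, hC, hmem⟩ := mixedDiff_bound (𝕜 := 𝕜) d hr hl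
  refine ⟨c0, (1 / 4 : ℝ) ^ d / 2 / (3 * C), hc0, by positivity, fun n m hm => ?_⟩
  unfold linearWidth
  refine le_iInf fun ⟨A, hA⟩ => ?_
  -- the composed finite-dimensional map
  set Φ : EuclideanSpace 𝕜 (Idx d n) →ₗ[𝕜] LInfty 𝕜 d :=
    (ContinuousMap.toLp (E := 𝕜) ∞ (torusMeasure d) 𝕜 : C(Torus d, 𝕜) →ₗ[𝕜] LInfty 𝕜 d) ∘ₗ
      torusMap 𝕜 d n with hΦ
  set E0 : Submodule 𝕜 (EuclideanSpace 𝕜 (Idx d n)) :=
    LinearMap.ker ((A : LInfty 𝕜 d →ₗ[𝕜] LInfty 𝕜 d) ∘ₗ Φ) with hE0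
  have hrank : Module.finrank 𝕜 E0ᗮ ≤ m := by
    have h1 := Submodule.finrank_add_finrank_orthogonal E0
    have h2 := LinearMap.finrank_range_add_finrank_ker
      ((A : LInfty 𝕜 d →ₗ[𝕜] LInfty 𝕜 d) ∘ₗ Φ)
    have h3 : Module.finrank 𝕜 (LinearMap.range ((A : LInfty 𝕜 d →ₗ[𝕜] LInfty 𝕜 d) ∘ₗ Φ)) ≤ m := by
      have h4 : LinearMap.rank ((A : LInfty 𝕜 d →ₗ[𝕜] LInfty 𝕜 d) ∘ₗ Φ) ≤ (m : Cardinal) :=
        (LinearMap.rank_comp_le_left Φ (A : LInfty 𝕜 d →ₗ[𝕜] LInfty 𝕜 d)).trans hA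
      have h5 : (Module.finrank 𝕜 (LinearMap.range
          ((A : LInfty 𝕜 d →ₗ[𝕜] LInfty 𝕜 d) ∘ₗ Φ)) : Cardinal) =
          LinearMap.rank ((A : LInfty 𝕜 d →ₗ[𝕜] LInfty 𝕜 d) ∘ₗ Φ) := by
        rw [LinearMap.rank, Module.finrank_eq_rank]
      rw [← h5] at h4
      exact_mod_cast h4
    rw [← hE0] at h2
    omega
  obtain ⟨y, b, hb, hb3, hbig⟩ := hcore n (n + 3) (by omega) le_rfl phi phi_nonneg phi_le_one
    phi_mid E0ᗮ ((by exact_mod_cast hrank : (Module.finrank 𝕜 E0ᗮ : ℝ) ≤ m).trans hm)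
  rw [Submodule.orthogonal_orthogonal] at hb
  have hAb : A (Φ b) = 0 := by
    have : b ∈ LinearMap.ker ((A : LInfty 𝕜 d →ₗ[𝕜] LInfty 𝕜 d) ∘ₗ Φ) := hb
    rw [LinearMap.mem_ker] at this
    exact this
  -- the normalised function
  set a : ℝ := (2 : ℝ) ^ (-r * n) / (3 * C) with ha
  have ha0 : 0 < a := by positivity
  set F : C(Torus d, 𝕜) := (a : 𝕜) • torusMap 𝕜 d n b with hF
  have hFapply : ∀ x, F x = (a : 𝕜) * torusFun b.ofLp x := fun x => rfl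
  have hbd : ∀ (e : Finset (Fin d)) (t : Fin d → ℝ) (x : Torus d),
      ‖mixedDiff l e t F x‖ ≤ ∏ j ∈ e, |t j| ^ r := by
    intro e t x
    have h1 : mixedDiff l e t F x = (a : 𝕜) * mixedDiff l e t (torusFun b.ofLp) x :=
      mixedDiff_smul l e t (a : 𝕜) (torusFun b.ofLp) x
    rw [h1, norm_mul, RCLike.norm_ofReal, abs_of_pos ha0, ha]
    have h2 := hmem n b.ofLp 3 (by norm_num) hb3 e t x
    calc (2 : ℝ) ^ (-r * n) / (3 * C) * ‖mixedDiff l e t (torusFun b.ofLp) x‖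
        = ((2 : ℝ) ^ (-r * n) * ‖mixedDiff l e t (torusFun b.ofLp) x‖) / (3 * C) := by ring
      _ ≤ (C * 3 * ∏ j ∈ e, |t j| ^ r) / (3 * C) := by gcongr
      _ = ∏ j ∈ e, |t j| ^ r := by field_simp
  have hclass : ContinuousMap.toLp (E := 𝕜) ∞ (torusMeasure d) 𝕜 F ∈ mixedHolderClass 𝕜 d r l := by
    refine toLp_mem_class F (fun x => ?_) fun e _ t x => hbd e t x
    have := hbd ∅ 0 x
    rw [mixedDiff_empty] at this
    simpa using this
  have hlp : ContinuousMap.toLp (E := 𝕜) ∞ (torusMeasure d) 𝕜 F = (a : 𝕜) • Φ b := by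
    rw [hF, map_smul]
    rfl
  refine le_trans ?_ (le_iSup₂_of_le (ContinuousMap.toLp (E := 𝕜) ∞ (torusMeasure d) 𝕜 F) hclass
    le_rfl)
  have hA0 : A (ContinuousMap.toLp (E := 𝕜) ∞ (torusMeasure d) 𝕜 F) = 0 := by
    rw [hlp, map_smul, hAb, smul_zero]
  show _ ≤ ‖ContinuousMap.toLp (E := 𝕜) ∞ (torusMeasure d) 𝕜 F -
    A (ContinuousMap.toLp (E := 𝕜) ∞ (torusMeasure d) 𝕜 F)‖ₑ
  rw [hA0, sub_zero, ← ofReal_norm]
  apply ENNReal.ofReal_le_ofReal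
  refine le_trans ?_ (norm_apply_le_norm_toLp F
    (fun j => ((2 * Real.pi * (y j : ℕ) / 2 ^ (n + 3) : ℝ) : AddCircle (2 * Real.pi))))
  rw [hFapply, norm_mul, RCLike.norm_ofReal, abs_of_pos ha0,
    torusFun_grid (show n ≤ n + 3 by omega) b.ofLp y, ha]
  calc (1 / 4 : ℝ) ^ d / 2 / (3 * C) * (Fintype.card (Shape d n) * (2 : ℝ) ^ (-r * n))
      = (2 : ℝ) ^ (-r * n) / (3 * C) * ((1 / 4 : ℝ) ^ d / 2 * Fintype.card (Shape d n)) := by ring
    _ ≤ _ := mul_le_mul_of_nonneg_left hbig (by positivity)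

end Pool.Agent.Helper40.LinWidth
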