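import Mathlib
import Pool.Agent.Helper40.LinWidth.Lower

/-!
# From levels to the sequence `m^(-r) (log m)^((d-1)(r+1))`: the lower bound
-/

open Finset MeasureTheory
open scoped ENNReal

namespace Pool.Agent.Helper40.LinWidth

theorem card_shape_upper (d n : ℕ) : (Fintype.card (Shape d n) : ℝ) ≤ ((n : ℝ) + 1) ^ d := by
  have h1 : Fintype.card (Shape d n) ≤ Fintype.card (Fin d → Fin (n + 1)) :=
    Fintype.card_subtype_le _
  rw [Fintype.card_fun, Fintype.card_fin, Fintype.card_fin] at h1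
  exact_mod_cast h1

theorem card_shape_lower (d' n : ℕ) :
    (((n : ℝ) + 1) / ((d' : ℝ) + 1)) ^ d' ≤ (Fintype.card (Shape (d' + 1) n) : ℝ) := by
  set q : ℕ := n / (d' + 1) with hq
  have hqn : (d' + 1) * q ≤ n := Nat.mul_div_le n (d' + 1)
  have hsum : ∀ t : Fin d' → Fin (q + 1), ∑ j, (t j : ℕ) ≤ d' * q := by
    intro t
    calc ∑ j, (t j : ℕ) ≤ ∑ _j : Fin d', q := Finset.sum_le_sum fun j _ => Nat.lt_succ_iff.1 (t j).2
      _ = d' * q := by simp
  have hq_le : q ≤ n := Nat.div_le_self _ _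
  let f : (Fin d' → Fin (q + 1)) → Shape (d' + 1) n := fun t =>
    ⟨Fin.cons ⟨n - ∑ j, (t j : ℕ), by omega⟩
      (fun j => ⟨(t j : ℕ), lt_of_lt_of_le (t j).2 (by omega)⟩), by
      rw [Fin.sum_univ_succ]
      simp only [Fin.cons_zero, Fin.cons_succ]
      have := hsum t
      have h2 : d' * q ≤ n := le_trans (by nlinarith) hqn
      omega⟩
  have hf : Function.Injective f := by
    intro t t' h
    funext j
    have h1 := congrArg Subtype.val h
    have h2 := congrFun h1 j.succ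
    simp only [f, Fin.cons_succ, Fin.mk.injEq] at h2
    exact Fin.ext h2
  have h3 := Fintype.card_le_of_injective f hf
  rw [Fintype.card_fun, Fintype.card_fin, Fintype.card_fin] at h3
  have h4 : ((n : ℝ) + 1) / ((d' : ℝ) + 1) ≤ ((q + 1 : ℕ) : ℝ) := by
    rw [div_le_iff₀ (by positivity)]
    have h5 : n + 1 ≤ (q + 1) * (d' + 1) := by
      have := Nat.lt_mul_div_succ n (show 0 < d' + 1 by omega)
      rw [← hq] at this
      calc n + 1 ≤ (d' + 1) * (q + 1) := this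
        _ = _ := mul_comm _ _
    exact_mod_cast h5
  calc (((n : ℝ) + 1) / ((d' : ℝ) + 1)) ^ d' ≤ ((q + 1 : ℕ) : ℝ) ^ d' :=
        pow_le_pow_left₀ (by positivity) h4 _
    _ ≤ _ := by exact_mod_cast h3

/-- The choice of the level: the least `n` with `m ≤ c0 |S_n| 2^n`. -/
theorem exists_level (d' : ℕ) {c0 : ℝ} (hc0 : 0 < c0) :
    ∃ C D : ℝ, 0 < C ∧ 0 < D ∧ ∀ m : ℕ, 1 ≤ m → ∃ n : ℕ,
      (m : ℝ) ≤ c0 * (Fintype.card (Shape (d' + 1) n) * 2 ^ n) ∧
      (2 : ℝ) ^ n * ((n : ℝ) + 1) ^ d' ≤ C * m ∧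
      Real.log m ≤ D * ((n : ℝ) + 1) := by
  classical
  set κ : ℝ := (1 / ((d' : ℝ) + 1)) ^ d' with hκ
  have hκ0 : 0 < κ := by positivity
  have hcard : ∀ n : ℕ, κ * ((n : ℝ) + 1) ^ d' ≤ Fintype.card (Shape (d' + 1) n) := by
    intro n
    refine le_trans (le_of_eq ?_) (card_shape_lower d' n)
    rw [hκ, ← mul_pow]
    congr 1
    ring
  have hcard1 : ∀ n : ℕ, κ ≤ Fintype.card (Shape (d' + 1) n) := by
    intro n
    refine le_trans ?_ (hcard n)
    have : (1 : ℝ) ≤ ((n : ℝ) + 1) ^ d' := one_le_pow₀ (by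
      have : (0 : ℝ) ≤ n := Nat.cast_nonneg n
      linarith)
    nlinarith
  refine ⟨max 1 (2 ^ (d' + 1) / (c0 * κ)), |Real.log c0| + (d' + 1) + 1,
    lt_of_lt_of_le one_pos (le_max_left _ _), by positivity, fun m hm => ?_⟩
  have hex : ∃ n : ℕ, (m : ℝ) ≤ c0 * (Fintype.card (Shape (d' + 1) n) * 2 ^ n) := by
    obtain ⟨n, hn⟩ := pow_unbounded_of_one_lt ((m : ℝ) / (c0 * κ)) (show (1 : ℝ) < 2 by norm_num)
    refine ⟨n, ?_⟩
    rw [div_lt_iff₀ (by positivity)] at hn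
    calc (m : ℝ) ≤ 2 ^ n * (c0 * κ) := hn.le
      _ = c0 * (κ * 2 ^ n) := by ring
      _ ≤ c0 * (Fintype.card (Shape (d' + 1) n) * 2 ^ n) := by
          gcongr
          exact hcard1 n
  set n := Nat.find hex with hn
  have hspec := Nat.find_spec hex
  rw [← hn] at hspec
  refine ⟨n, hspec, ?_, ?_⟩
  · rcases Nat.eq_zero_or_pos n with h0 | hpos
    · rw [h0]
      have hm1 : (1 : ℝ) ≤ m := by exact_mod_cast hm
      simp only [pow_zero, Nat.cast_zero, zero_add, one_pow, mul_one]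
      calc (1 : ℝ) = 1 * 1 := by ring
        _ ≤ max 1 (2 ^ (d' + 1) / (c0 * κ)) * m :=
          mul_le_mul (le_max_left _ _) hm1 zero_le_one (le_trans zero_le_one (le_max_left _ _))
    · obtain ⟨n', hn'⟩ : ∃ n', n = n' + 1 := ⟨n - 1, by omega⟩
      have hmin := Nat.find_min hex (m := n') (by omega)
      push Not at hmin
      have h1 : c0 * (κ * ((n' : ℝ) + 1) ^ d' * 2 ^ n') < m := by
        refine lt_of_le_of_lt ?_ hmin
        gcongr
        exact hcard n'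
      rw [hn']
      have h2 : ((n' + 1 : ℕ) : ℝ) + 1 ≤ 2 * ((n' : ℝ) + 1) := by
        push_cast
        have : (0 : ℝ) ≤ n' := Nat.cast_nonneg n'
        linarith
      calc (2 : ℝ) ^ (n' + 1) * (((n' + 1 : ℕ) : ℝ) + 1) ^ d'
          ≤ 2 ^ (n' + 1) * (2 * ((n' : ℝ) + 1)) ^ d' := by gcongr
        _ = 2 ^ (d' + 1) / (c0 * κ) * (c0 * (κ * ((n' : ℝ) + 1) ^ d' * 2 ^ n')) := by
            rw [mul_pow, pow_succ 2 n', pow_succ 2 d']
            field_simp
        _ ≤ 2 ^ (d' + 1) / (c0 * κ) * m := by gcongr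
        _ ≤ _ := by
            gcongr
            exact le_max_right _ _
  · have hm0 : (0 : ℝ) < m := by exact_mod_cast hm
    have hn0 : (0 : ℝ) ≤ n := Nat.cast_nonneg n
    have h1 : (m : ℝ) ≤ c0 * (((n : ℝ) + 1) ^ (d' + 1) * 2 ^ n) := by
      refine hspec.trans ?_
      gcongr
      exact card_shape_upper (d' + 1) n
    have h2 := Real.log_le_log hm0 h1
    rw [Real.log_mul hc0.ne' (by positivity), Real.log_mul (by positivity) (by positivity),
      Real.log_pow, Real.log_pow] at h2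
    have h3 : Real.log ((n : ℝ) + 1) ≤ n := by
      have := Real.log_le_sub_one_of_pos (show (0 : ℝ) < n + 1 by positivity)
      linarith
    have h4 : Real.log 2 ≤ 1 := by
      have := Real.log_le_sub_one_of_pos (show (0 : ℝ) < 2 by norm_num)
      linarith
    have h5 : Real.log c0 ≤ |Real.log c0| := le_abs_self _
    have h6 : ((d' + 1 : ℕ) : ℝ) * Real.log ((n : ℝ) + 1) ≤ (d' + 1) * n := by
      push_cast
      gcongr
    have h7 : (n : ℝ) * Real.log 2 ≤ n := by nlinarith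
    have h8 : 0 ≤ |Real.log c0| * n := by positivity
    have h9 : (0 : ℝ) ≤ d' := Nat.cast_nonneg d'
    nlinarith

/-- **Lower bound** for the linear widths. -/
theorem linearWidth_lower (𝕜 : Type*) [RCLike 𝕜] (d : ℕ) (hd : 1 ≤ d) {r : ℝ} (hr : 0 < r)
    {l : ℕ} (hl : r < l) :
    ∃ c : ℝ, 0 < c ∧ ∀ m : ℕ, 2 ≤ m →
      ENNReal.ofReal (c * orderSeq d r m) ≤ linearWidth 𝕜 (mixedHolderClass 𝕜 d r l) m := by
  obtain ⟨d', rfl⟩ : ∃ d', d = d' + 1 := ⟨d - 1, by omega⟩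
  obtain ⟨c0, c1, hc0, hc1, hlow⟩ := lower_level 𝕜 (d' + 1) hr hl
  obtain ⟨C, D, hC, hD, hlev⟩ := exists_level d' hc0
  set κ : ℝ := (1 / ((d' : ℝ) + 1)) ^ d' with hκ
  have hκ0 : 0 < κ := by positivity
  set E : ℝ := (((d' + 1 : ℕ) : ℝ) - 1) * (r + 1) with hE
  have hEd : E = d' * (r + 1) := by rw [hE]; push_cast; ring
  have hE0 : 0 ≤ E := by rw [hEd]; positivity
  refine ⟨c1 * κ * C ^ (-r) * D ^ (-E), by positivity, fun m hm => ?_⟩
  obtain ⟨n, hn1, hn2, hn3⟩ := hlev m (by omega)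
  refine le_trans (ENNReal.ofReal_le_ofReal ?_) (hlow n m hn1)
  have hm0 : (0 : ℝ) < m := by positivity
  have hN : (0 : ℝ) < (n : ℝ) + 1 := by positivity
  have hlog0 : 0 ≤ Real.log m := Real.log_nonneg (by exact_mod_cast (by omega : 1 ≤ m))
  -- first factor
  have h1 : C ^ (-r) * (m : ℝ) ^ (-r) * ((n : ℝ) + 1) ^ ((d' : ℝ) * r) ≤ (2 : ℝ) ^ (-r * n) := by
    have h2 : (2 : ℝ) ^ (-r * n) = ((2 : ℝ) ^ n) ^ (-r) := by
      rw [← Real.rpow_natCast, ← Real.rpow_mul (by norm_num)]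
      congr 1; ring
    have h3 : (2 : ℝ) ^ n ≤ C * m / ((n : ℝ) + 1) ^ d' := by
      rw [le_div_iff₀ (by positivity)]
      exact hn2
    have h4 : (C * m / ((n : ℝ) + 1) ^ d') ^ (-r) ≤ ((2 : ℝ) ^ n) ^ (-r) :=
      Real.rpow_le_rpow_of_nonpos (by positivity) h3 (by linarith)
    rw [h2]
    refine le_trans (le_of_eq ?_) h4
    rw [Real.div_rpow (by positivity) (by positivity), Real.mul_rpow hC.le hm0.le,
      ← Real.rpow_natCast ((n : ℝ) + 1) d', ← Real.rpow_mul hN.le, div_eq_mul_inv,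
      ← Real.rpow_neg hN.le]
    congr 2
    ring
  have h5 : D ^ (-E) * Real.log m ^ E ≤ ((n : ℝ) + 1) ^ E := by
    calc D ^ (-E) * Real.log m ^ E ≤ D ^ (-E) * (D * ((n : ℝ) + 1)) ^ E := by
          gcongr
      _ = ((n : ℝ) + 1) ^ E := by
          rw [Real.mul_rpow hD.le hN.le, ← mul_assoc, ← Real.rpow_add hD]
          simp
  have h6 : ((n : ℝ) + 1) ^ E = ((n : ℝ) + 1) ^ d' * ((n : ℝ) + 1) ^ ((d' : ℝ) * r) := by
    rw [← Real.rpow_natCast, ← Real.rpow_add hN, hEd]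
    congr 1; ring
  have h7 : κ * ((n : ℝ) + 1) ^ d' ≤ Fintype.card (Shape (d' + 1) n) := by
    refine le_trans (le_of_eq ?_) (card_shape_lower d' n)
    rw [hκ, ← mul_pow]
    congr 1
    ring
  unfold orderSeq
  rw [← hE]
  calc c1 * κ * C ^ (-r) * D ^ (-E) * ((m : ℝ) ^ (-r) * Real.log m ^ E)
      = c1 * κ * (C ^ (-r) * (m : ℝ) ^ (-r)) * (D ^ (-E) * Real.log m ^ E) := by ring
    _ ≤ c1 * κ * (C ^ (-r) * (m : ℝ) ^ (-r)) * ((n : ℝ) + 1) ^ E := by gcongr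
    _ = c1 * ((κ * ((n : ℝ) + 1) ^ d') *
          (C ^ (-r) * (m : ℝ) ^ (-r) * ((n : ℝ) + 1) ^ ((d' : ℝ) * r))) := by rw [h6]; ring
    _ ≤ c1 * (Fintype.card (Shape (d' + 1) n) * (2 : ℝ) ^ (-r * n)) := by gcongr

end Pool.Agent.Helper40.LinWidth
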