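import Mathlib
import Pool.Agent.Helper40.LinWidth.Defs

/-!
# From levels to the sequence `m^(-r) (log m)^((d-1)(r+1))`: the upper bound
-/

open Finset MeasureTheory
open scoped ENNReal

namespace Pool.Agent.Helper40.LinWidth

theorem linearWidth_le_of_operator {𝕜 : Type*} [RCLike 𝕜] {X : Type*} [NormedAddCommGroup X]
    [NormedSpace 𝕜 X] (F : Set X) {m : ℕ} (A : X →L[𝕜] X)
    (hA : (A : X →ₗ[𝕜] X).rank ≤ (m : Cardinal)) {B : ℝ} (hB : ∀ f ∈ F, ‖f - A f‖ ≤ B) :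
    linearWidth 𝕜 F m ≤ ENNReal.ofReal B := by
  unfold linearWidth
  refine iInf_le_of_le ⟨A, hA⟩ (iSup₂_le fun f hf => ?_)
  rw [← ofReal_norm]
  exact ENNReal.ofReal_le_ofReal (hB f hf)

/-- The upper bound, given good operators at every level. -/
theorem linearWidth_upper (𝕜 : Type*) [RCLike 𝕜] (d : ℕ) (hd : 1 ≤ d) {r : ℝ} (hr : 0 < r)
    {l : ℕ} (h : ∃ C1 C2 : ℝ, ∀ n : ℕ, ∃ A : LInfty 𝕜 d →L[𝕜] LInfty 𝕜 d, ∃ N : ℕ,
      (A : LInfty 𝕜 d →ₗ[𝕜] LInfty 𝕜 d).rank ≤ (N : Cardinal) ∧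
      (N : ℝ) ≤ C1 * ((n : ℝ) + 1) ^ (d - 1) * 2 ^ n ∧
      ∀ f ∈ mixedHolderClass 𝕜 d r l, ‖f - A f‖ ≤ C2 * ((n : ℝ) + 1) ^ (d - 1) *
        (2 : ℝ) ^ (-r * n)) :
    ∃ C : ℝ, 0 < C ∧ ∀ m : ℕ, 2 ≤ m →
      linearWidth 𝕜 (mixedHolderClass 𝕜 d r l) m ≤ ENNReal.ofReal (C * orderSeq d r m) := by
  classical
  obtain ⟨d', rfl⟩ : ∃ d', d = d' + 1 := ⟨d - 1, by omega⟩
  obtain ⟨C1, C2, hop⟩ := h
  rw [Nat.add_sub_cancel] at hop
  set D1 : ℝ := max C1 1 with hD1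
  have hD1pos : 0 < D1 := lt_of_lt_of_le one_pos (le_max_right _ _)
  set D2 : ℝ := max C2 1 with hD2
  have hD2pos : 0 < D2 := lt_of_lt_of_le one_pos (le_max_right _ _)
  set E : ℝ := (((d' + 1 : ℕ) : ℝ) - 1) * (r + 1) with hE
  have hEd : E = d' * (r + 1) := by rw [hE]; push_cast; ring
  have hE0 : 0 ≤ E := by rw [hEd]; positivity
  have hlog2 : 0 < Real.log 2 := Real.log_pos (by norm_num)
  set K : ℝ := (D1 * 2 ^ (d' + 1)) ^ r * D2 * (2 / Real.log 2) ^ E with hK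
  have hKpos : 0 < K := by positivity
  set K' : ℝ := D1 ^ r * (Real.log 2) ^ (-E) with hK'
  have hK'pos : 0 < K' := by positivity
  refine ⟨max K K', lt_of_lt_of_le hKpos (le_max_left _ _), fun m hm => ?_⟩
  have hm0 : (0 : ℝ) < m := by positivity
  have hm2 : (2 : ℝ) ≤ m := by exact_mod_cast hm
  have hlogm : Real.log 2 ≤ Real.log m := Real.log_le_log (by norm_num) hm2
  have hlogm0 : 0 < Real.log m := lt_of_lt_of_le hlog2 hlogm
  have horder : 0 ≤ orderSeq (d' + 1) r m := by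
    unfold orderSeq; positivity
  -- the levels that fit
  by_cases hsmall : (m : ℝ) < D1
  · -- use the zero operator
    refine (linearWidth_le_of_operator (B := 1) _ (0 : LInfty 𝕜 (d' + 1) →L[𝕜] LInfty 𝕜 (d' + 1))
      (by simp) ?_).trans ?_
    · intro f hf
      simpa using hf.1
    · apply ENNReal.ofReal_le_ofReal
      have h1 : D1 ^ (-r) ≤ (m : ℝ) ^ (-r) :=
        Real.rpow_le_rpow_of_nonpos hm0 hsmall.le (by linarith)
      have h2 : (Real.log 2) ^ E ≤ (Real.log m) ^ E :=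
        Real.rpow_le_rpow hlog2.le hlogm hE0
      calc (1 : ℝ) = K' * (D1 ^ (-r) * (Real.log 2) ^ E) := by
            rw [hK', Real.rpow_neg hD1pos.le, Real.rpow_neg hlog2.le]
            have : D1 ^ r ≠ 0 := (Real.rpow_pos_of_pos hD1pos r).ne'
            have : (Real.log 2) ^ E ≠ 0 := (Real.rpow_pos_of_pos hlog2 E).ne'
            field_simp
        _ ≤ K' * ((m : ℝ) ^ (-r) * (Real.log m) ^ E) := by gcongr
        _ ≤ max K K' * orderSeq (d' + 1) r m := by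
            unfold orderSeq
            rw [← hE]
            gcongr
            exact le_max_right _ _
  · push Not at hsmall
    -- the least level that does not fit
    have hex : ∃ n : ℕ, (m : ℝ) < D1 * ((n : ℝ) + 1) ^ d' * 2 ^ n := by
      obtain ⟨n, hn⟩ := pow_unbounded_of_one_lt (m : ℝ) (show (1 : ℝ) < 2 by norm_num)
      refine ⟨n, lt_of_lt_of_le hn ?_⟩
      have h1 : (1 : ℝ) ≤ ((n : ℝ) + 1) ^ d' := one_le_pow₀ (by
        have : (0 : ℝ) ≤ n := Nat.cast_nonneg n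
        linarith)
      have h2 : (1 : ℝ) ≤ D1 := le_max_right _ _
      calc (2 : ℝ) ^ n = 1 * 1 * 2 ^ n := by ring
        _ ≤ D1 * ((n : ℝ) + 1) ^ d' * 2 ^ n := by gcongr
    have hspec := Nat.find_spec hex
    have hpos : Nat.find hex ≠ 0 := by
      intro h0
      rw [h0] at hspec
      simp at hspec
      linarith
    obtain ⟨n, hn⟩ : ∃ n, Nat.find hex = n + 1 := ⟨Nat.find hex - 1, by omega⟩
    have hmin := Nat.find_min hex (m := n) (by omega)
    push Not at hmin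
    rw [hn] at hspec
    obtain ⟨A, N, hArank, hN, hAf⟩ := hop n
    have hn0 : (0 : ℝ) ≤ n := Nat.cast_nonneg n
    have hn1 : (0 : ℝ) < (n : ℝ) + 1 := by positivity
    have hNm : N ≤ m := by
      have : (N : ℝ) ≤ m := by
        calc (N : ℝ) ≤ C1 * ((n : ℝ) + 1) ^ d' * 2 ^ n := hN
          _ ≤ D1 * ((n : ℝ) + 1) ^ d' * 2 ^ n := by
              gcongr
              exact le_max_left _ _
          _ ≤ m := hmin
      exact_mod_cast this
    refine (linearWidth_le_of_operator (B := C2 * ((n : ℝ) + 1) ^ d' * (2 : ℝ) ^ (-r * n)) _ A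
      (hArank.trans (by exact_mod_cast hNm)) hAf).trans ?_
    apply ENNReal.ofReal_le_ofReal
    -- compare
    have h1 : (m : ℝ) / (D1 * 2 ^ (d' + 1) * ((n : ℝ) + 1) ^ d') ≤ 2 ^ n := by
      rw [div_le_iff₀ (by positivity)]
      calc (m : ℝ) ≤ D1 * (((n + 1 : ℕ) : ℝ) + 1) ^ d' * 2 ^ (n + 1) := hspec.le
        _ ≤ D1 * (2 * ((n : ℝ) + 1)) ^ d' * 2 ^ (n + 1) := by
            gcongr
            push_cast
            linarith
        _ = 2 ^ n * (D1 * 2 ^ (d' + 1) * ((n : ℝ) + 1) ^ d') := by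
            rw [mul_pow, pow_succ 2 n, pow_succ 2 d']; ring
    have h2 : (2 : ℝ) ^ (-r * n) ≤
        (D1 * 2 ^ (d' + 1)) ^ r * (m : ℝ) ^ (-r) * ((n : ℝ) + 1) ^ ((d' : ℝ) * r) := by
      have h3 : (2 : ℝ) ^ (-r * n) = ((2 : ℝ) ^ n) ^ (-r) := by
        rw [← Real.rpow_natCast, ← Real.rpow_mul (by norm_num)]
        congr 1; ring
      rw [h3]
      refine (Real.rpow_le_rpow_of_nonpos (by positivity) h1 (by linarith)).trans (le_of_eq ?_)
      rw [Real.div_rpow (by positivity) (by positivity),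
        Real.mul_rpow (by positivity) (by positivity), ← Real.rpow_natCast ((n : ℝ) + 1) d',
        ← Real.rpow_mul hn1.le, Real.rpow_neg (x := D1 * 2 ^ (d' + 1)) (by positivity),
        show (d' : ℝ) * -r = -((d' : ℝ) * r) by ring, Real.rpow_neg (x := (n : ℝ) + 1) hn1.le]
      have h4 : (D1 * 2 ^ (d' + 1)) ^ r ≠ 0 := (Real.rpow_pos_of_pos (by positivity) r).ne'
      have h5 : ((n : ℝ) + 1) ^ ((d' : ℝ) * r) ≠ 0 := (Real.rpow_pos_of_pos hn1 _).ne'
      field_simp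
    have h6 : (n : ℝ) + 1 ≤ 2 / Real.log 2 * Real.log m := by
      have h7 : (2 : ℝ) ^ n ≤ m := by
        refine le_trans ?_ hmin
        have h8 : (1 : ℝ) ≤ ((n : ℝ) + 1) ^ d' := one_le_pow₀ (by linarith)
        have h9 : (1 : ℝ) ≤ D1 := le_max_right _ _
        calc (2 : ℝ) ^ n = 1 * 1 * 2 ^ n := by ring
          _ ≤ D1 * ((n : ℝ) + 1) ^ d' * 2 ^ n := by gcongr
      have h10 : (n : ℝ) * Real.log 2 ≤ Real.log m := by
        rw [← Real.log_pow]
        exact Real.log_le_log (by positivity) h7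
      rw [div_mul_eq_mul_div, le_div_iff₀ hlog2]
      linarith
    have h11 : ((n : ℝ) + 1) ^ E ≤ (2 / Real.log 2) ^ E * Real.log m ^ E := by
      rw [← Real.mul_rpow (by positivity) hlogm0.le]
      exact Real.rpow_le_rpow hn1.le h6 hE0
    have h12 : ((n : ℝ) + 1) ^ d' * ((n : ℝ) + 1) ^ ((d' : ℝ) * r) = ((n : ℝ) + 1) ^ E := by
      rw [← Real.rpow_natCast, ← Real.rpow_add hn1, hEd]
      congr 1; ring
    calc C2 * ((n : ℝ) + 1) ^ d' * (2 : ℝ) ^ (-r * n)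
        ≤ D2 * ((n : ℝ) + 1) ^ d' * (2 : ℝ) ^ (-r * n) := by
          gcongr
          exact le_max_left _ _
      _ ≤ D2 * ((n : ℝ) + 1) ^ d' *
          ((D1 * 2 ^ (d' + 1)) ^ r * (m : ℝ) ^ (-r) * ((n : ℝ) + 1) ^ ((d' : ℝ) * r)) := by
          gcongr
      _ = (D1 * 2 ^ (d' + 1)) ^ r * D2 * (m : ℝ) ^ (-r) *
          (((n : ℝ) + 1) ^ d' * ((n : ℝ) + 1) ^ ((d' : ℝ) * r)) := by ring
      _ = (D1 * 2 ^ (d' + 1)) ^ r * D2 * (m : ℝ) ^ (-r) * ((n : ℝ) + 1) ^ E := by rw [h12]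
      _ ≤ (D1 * 2 ^ (d' + 1)) ^ r * D2 * (m : ℝ) ^ (-r) *
          ((2 / Real.log 2) ^ E * Real.log m ^ E) := by gcongr
      _ = K * ((m : ℝ) ^ (-r) * Real.log m ^ E) := by rw [hK]; ring
      _ ≤ max K K' * orderSeq (d' + 1) r m := by
          unfold orderSeq
          rw [← hE]
          gcongr
          exact le_max_left _ _

end Pool.Agent.Helper40.LinWidth
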